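import Mathlib

/-!
Helper file (helper337) for MP_7af359_nt: algebraic facts on integer 3x3 matrices with
characteristic polynomial irreducible over the rationals.
-/

namespace Pool.Agent.R337

open Matrix Polynomial

/-- Real point of an integer vector. -/
def toR (v : Fin 3 → ℤ) : Fin 3 → ℝ := fun i => (v i : ℝ)

/-- Real matrix of an integer matrix. -/
def matR (M : Matrix (Fin 3) (Fin 3) ℤ) : Matrix (Fin 3) (Fin 3) ℝ := M.map (Int.castRingHom ℝ)

/-- Rational matrix of an integer matrix. -/
def matQ (M : Matrix (Fin 3) (Fin 3) ℤ) : Matrix (Fin 3) (Fin 3) ℚ := M.map (Int.castRingHom ℚ)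

theorem toR_zero_iff {v : Fin 3 → ℤ} : toR v = 0 ↔ v = 0 := by
  constructor
  · intro h
    funext i
    have := congrFun h i
    simpa [toR] using this
  · rintro rfl
    funext i
    simp [toR]

/-- If `n` is a nonzero rational row vector and `χ_M` is irreducible over `ℚ`, then
`n, nM, nM²` are linearly independent. -/
theorem rows_indep {M : Matrix (Fin 3) (Fin 3) ℚ} (hirr : Irreducible M.charpoly)
    {n : Fin 3 → ℚ} (hn : n ≠ 0) (c : Fin 3 → ℚ)
    (hc : c 0 • n + c 1 • (n ᵥ* M) + c 2 • (n ᵥ* (M * M)) = 0) : c = 0 := by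
  by_contra hc0
  set p : ℚ[X] := C (c 0) + C (c 1) * X + C (c 2) * X ^ 2 with hp
  have hp0 : p ≠ 0 := by
    intro h
    apply hc0
    funext i
    fin_cases i
    · have := congrArg (fun q => coeff q 0) h
      simpa [hp, coeff_X, coeff_X_pow] using this
    · have := congrArg (fun q => coeff q 1) h
      simpa [hp, coeff_X, coeff_X_pow, coeff_C] using this
    · have := congrArg (fun q => coeff q 2) h
      simpa [hp, coeff_X, coeff_X_pow, coeff_C] using this
  have hpdeg : p.natDegree ≤ 2 := by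
    rw [hp]
    compute_degree
  have hchi : M.charpoly.natDegree = 3 := by
    rw [Matrix.charpoly_natDegree_eq_dim]; simp
  have hcop : IsCoprime M.charpoly p := by
    rw [Irreducible.coprime_iff_not_dvd hirr]
    intro hd
    have := natDegree_le_of_dvd hd hp0
    omega
  obtain ⟨u, w, huw⟩ := hcop
  have h1 := congrArg (fun q => n ᵥ* (aeval M q)) huw
  simp only [map_add, map_mul, map_one, vecMul_one] at h1
  rw [Matrix.aeval_self_charpoly, mul_zero, zero_add] at h1
  have h2 : n ᵥ* (aeval M p) = 0 := by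
    rw [hp]
    simp only [map_add, map_mul, aeval_C, aeval_X, map_pow, vecMul_add]
    rw [← hc]
    simp only [Algebra.algebraMap_eq_smul_one, Matrix.smul_mul, one_mul, vecMul_smul, vecMul_one,
      pow_two]
  have h3 : (aeval M w) * (aeval M p) = (aeval M p) * (aeval M w) := by
    rw [← map_mul, ← map_mul, mul_comm]
  rw [h3, ← vecMul_vecMul, h2, zero_vecMul] at h1
  exact hn h1.symm

/-- A nonzero integer covector does not vanish at a real eigenvector of an integer matrix whose
characteristic polynomial is irreducible over `ℚ`. -/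
theorem dot_ne_zero {M : Matrix (Fin 3) (Fin 3) ℤ} (hirr : Irreducible (matQ M).charpoly)
    {w : Fin 3 → ℝ} (hw : w ≠ 0) {α : ℝ} (hM : matR M *ᵥ w = α • w)
    {n : Fin 3 → ℤ} (hn : n ≠ 0) : toR n ⬝ᵥ w ≠ 0 := by
  intro h0
  -- integer matrix with rows n, nM, nM^2
  obtain ⟨N, hN0, hN1, hN2⟩ : ∃ N : Matrix (Fin 3) (Fin 3) ℤ, (∀ j, N 0 j = n j) ∧
      (∀ j, N 1 j = (n ᵥ* M) j) ∧ (∀ j, N 2 j = (n ᵥ* (M * M)) j) :=
    ⟨fun i j => (![n, n ᵥ* M, n ᵥ* (M * M)] i) j, fun _ => rfl, fun _ => rfl, fun _ => rfl⟩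
  have hNw : matR N *ᵥ w = 0 := by
    have h1 : toR (n ᵥ* M) ⬝ᵥ w = α * (toR n ⬝ᵥ w) := by
      have : toR (n ᵥ* M) = toR n ᵥ* matR M := by
        funext i
        simp [toR, matR, vecMul, dotProduct, Matrix.map_apply]
      rw [this, ← dotProduct_mulVec, hM, dotProduct_smul, smul_eq_mul]
    have h2 : toR (n ᵥ* (M * M)) ⬝ᵥ w = α * (α * (toR n ⬝ᵥ w)) := by
      have : toR (n ᵥ* (M * M)) = toR n ᵥ* (matR M * matR M) := by
        have hmm : matR M * matR M = matR (M * M) := (Matrix.map_mul (f := Int.castRingHom ℝ)).symm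
        rw [hmm]
        funext i
        simp only [toR, matR, vecMul, dotProduct, Matrix.map_apply]
        push_cast
        simp
      rw [this, ← dotProduct_mulVec, ← mulVec_mulVec, hM, mulVec_smul, hM, dotProduct_smul,
        dotProduct_smul, smul_eq_mul, smul_eq_mul]
    funext i
    fin_cases i
    · simpa [matR, hN0, mulVec, dotProduct, toR] using h0
    · rw [h0, mul_zero] at h1
      simpa [matR, hN1, mulVec, dotProduct, toR] using h1
    · rw [h0, mul_zero, mul_zero] at h2
      simpa [matR, hN2, mulVec, dotProduct, toR] using h2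
  have hdetR : (matR N).det = 0 := Matrix.exists_mulVec_eq_zero_iff.mp ⟨w, hw, hNw⟩
  have hdetZ : N.det = 0 := by
    have : ((Int.castRingHom ℝ) N.det) = 0 := by
      rw [RingHom.map_det]; exact hdetR
    simpa using this
  have hdetQ : (matQ N).det = 0 := by
    have : ((Int.castRingHom ℚ) N.det) = (matQ N).det := by
      rw [RingHom.map_det]; rfl
    rw [← this, hdetZ]; simp
  obtain ⟨c, hc0, hc⟩ := Matrix.exists_vecMul_eq_zero_iff.mpr hdetQ
  have hnQ : (fun i => (n i : ℚ)) ≠ 0 := by
    intro h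
    apply hn
    funext i
    have := congrFun h i
    simpa using this
  apply hc0
  refine rows_indep hirr hnQ c ?_
  rw [← hc]
  funext i
  have hQ1 : (fun i => (n i : ℚ)) ᵥ* matQ M = fun i => ((n ᵥ* M) i : ℚ) := by
    funext i
    simp [matQ, vecMul, dotProduct, Matrix.map_apply]
  have hQ2 : (fun i => (n i : ℚ)) ᵥ* (matQ M * matQ M) = fun i => ((n ᵥ* (M * M)) i : ℚ) := by
    have hmm : matQ M * matQ M = matQ (M * M) := (Matrix.map_mul (f := Int.castRingHom ℚ)).symm
    rw [hmm]
    funext i
    simp only [matQ, vecMul, dotProduct, Matrix.map_apply]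
    push_cast
    simp
  rw [hQ1, hQ2]
  simp [matQ, hN0, hN1, hN2, vecMul, dotProduct, Fin.sum_univ_three]

end Pool.Agent.R337
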