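import Mathlib

/-!
Helper file (helper337) for MP_7af359_nt: convex geometry of the cones over open polygons.
-/

namespace Pool.Agent.R337

open Set

/-- The open cone with apex the origin over a set. -/
def coneOf (P : Set (Fin 3 → ℝ)) : Set (Fin 3 → ℝ) := {x | ∃ l : ℝ, 0 < l ∧ ∃ p ∈ P, x = l • p}

/-- What is used of an open polygon: it is convex, nonempty, bounded, lies in the plane `φ = 1`
and the cone over it is open. -/
structure PolyData (P : Set (Fin 3 → ℝ)) (φ : (Fin 3 → ℝ) →ₗ[ℝ] ℝ) : Prop where
  conv : Convex ℝ P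
  ne : P.Nonempty
  one : ∀ x ∈ P, φ x = 1
  opn : IsOpen (coneOf P)
  bdd : Bornology.IsBounded P

namespace PolyData

variable {P P' : Set (Fin 3 → ℝ)} {φ φ' : (Fin 3 → ℝ) →ₗ[ℝ] ℝ}

theorem subset_cone : P ⊆ coneOf P := fun x hx => ⟨1, one_pos, x, hx, by simp⟩

theorem mem_cone_iff (h : PolyData P φ) {x : Fin 3 → ℝ} :
    x ∈ coneOf P ↔ 0 < φ x ∧ (φ x)⁻¹ • x ∈ P := by
  constructor
  · rintro ⟨l, hl, p, hp, rfl⟩
    have h1 : φ (l • p) = l := by rw [map_smul, h.one p hp, smul_eq_mul, mul_one]
    rw [h1]
    refine ⟨hl, ?_⟩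
    rw [smul_smul, inv_mul_cancel₀ hl.ne', one_smul]
    exact hp
  · rintro ⟨h0, h1⟩
    refine ⟨φ x, h0, _, h1, ?_⟩
    rw [smul_smul, mul_inv_cancel₀ h0.ne', one_smul]

theorem conv_cone (h : PolyData P φ) : Convex ℝ (coneOf P) := by
  rintro x ⟨l, hl, p, hp, rfl⟩ y ⟨m, hm, q, hq, rfl⟩ a b ha hb hab
  have hpos : 0 < a * l + b * m := by
    rcases ha.lt_or_eq with ha' | ha'
    · have : 0 ≤ b * m := mul_nonneg hb hm.le
      have : 0 < a * l := mul_pos ha' hl
      linarith
    · have hb1 : b = 1 := by linarith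
      subst hb1
      rw [← ha']
      simpa using hm
  refine ⟨a * l + b * m, hpos, ((a * l) / (a * l + b * m)) • p + ((b * m) / (a * l + b * m)) • q,
    ?_, ?_⟩
  · refine h.conv hp hq (by positivity) (by positivity) ?_
    field_simp
  · rw [smul_add, smul_smul, smul_smul, smul_smul, smul_smul]
    congr 2 <;> field_simp

theorem closure_one (h : PolyData P φ) {x : Fin 3 → ℝ} (hx : x ∈ closure P) : φ x = 1 := by
  have hcl : IsClosed {x | φ x = 1} :=
    isClosed_eq φ.continuous_of_finiteDimensional continuous_const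
  exact closure_minimal (fun y hy => h.one y hy) hcl hx

theorem openSegment_subset (h : PolyData P φ) {a c : Fin 3 → ℝ} (ha : a ∈ closure P)
    (hc : c ∈ P) : openSegment ℝ a c ⊆ P := by
  intro z hz
  have h1 : z ∈ interior (coneOf P) := by
    refine h.conv_cone.openSegment_closure_interior_subset_interior
      (closure_mono subset_cone ha) ?_ hz
    rw [h.opn.interior_eq]
    exact subset_cone hc
  have h2 : z ∈ coneOf P := interior_subset h1
  have h3 : φ z = 1 := by
    obtain ⟨s, t, hs, ht, hst, rfl⟩ := hz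
    rw [map_add, map_smul, map_smul, h.closure_one ha, h.one c hc]
    simpa using hst
  have := (h.mem_cone_iff.mp h2).2
  simpa [h3] using this

theorem combo_mem (h : PolyData P φ) {a b c : Fin 3 → ℝ} (ha : a ∈ closure P)
    (hb : b ∈ closure P) (hc : c ∈ P) {α β κ : ℝ} (hα : 0 < α) (hβ : 0 < β) (hκ : 0 < κ) :
    α • a + β • b + κ • c ∈ coneOf P := by
  have hz : (α / (α + β)) • a + (β / (α + β)) • b ∈ closure P := by
    refine h.conv.closure ha hb (by positivity) (by positivity) ?_
    field_simp
  have hS : 0 < α + β + κ := by positivity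
  refine ⟨α + β + κ, hS, ((α + β) / (α + β + κ)) • ((α / (α + β)) • a + (β / (α + β)) • b) +
    (κ / (α + β + κ)) • c, ?_, ?_⟩
  · apply h.openSegment_subset hz hc
    refine ⟨(α + β) / (α + β + κ), κ / (α + β + κ), by positivity, by positivity, ?_, rfl⟩
    field_simp
  · have hAB : α + β ≠ 0 := by positivity
    simp only [smul_add, smul_smul]
    congr 1
    · congr 2 <;> field_simp
    · congr 1; field_simp

/-- The line through two points `a`, `b` of the closure of `P` does not meet `P` as soon as one
point of the open segment is not in `P`. -/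
theorem line_disjoint (h : PolyData P φ) {a b q : Fin 3 → ℝ} (ha : a ∈ closure P)
    (hb : b ∈ closure P) (hq : q ∈ openSegment ℝ a b) (hqP : q ∉ P) (κ : ℝ) :
    (1 - κ) • a + κ • b ∉ P := by
  intro hw
  obtain ⟨s, ρ, hs, hρ, hsρ, rfl⟩ := hq
  have hs' : s = 1 - ρ := by linarith
  subst hs'
  rcases lt_trichotomy κ ρ with hlt | heq | hgt
  · apply hqP
    apply h.openSegment_subset hb hw
    have h1 : 0 < 1 - κ := by linarith
    refine ⟨(ρ - κ) / (1 - κ), (1 - ρ) / (1 - κ), div_pos (by linarith) h1,
      div_pos hs h1, by field_simp; ring, ?_⟩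
    ext i
    simp only [Pi.add_apply, Pi.smul_apply, smul_eq_mul]
    field_simp
    ring
  · subst heq; exact hqP hw
  · apply hqP
    apply h.openSegment_subset ha hw
    have h1 : 0 < κ := by linarith
    refine ⟨(κ - ρ) / κ, ρ / κ, div_pos (by linarith) h1, div_pos hρ h1, by field_simp; ring, ?_⟩
    ext i
    simp only [Pi.add_apply, Pi.smul_apply, smul_eq_mul]
    field_simp
    ring

/-- Crossing an edge: a line leaving the cone over `P` through the relative interior of the edge
`(a, b)` enters the cone over the polygon `P'` on the other side of a well-placed edge, and the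
linear form does not increase. -/
theorem crossing (h : PolyData P φ) (h' : PolyData P' φ') {a b : Fin 3 → ℝ} (hab : a ≠ b)
    (ha : a ∈ closure P) (hb : b ∈ closure P) (ha' : a ∈ closure P') (hb' : b ∈ closure P')
    {q : Fin 3 → ℝ} (hq : q ∈ openSegment ℝ a b) (hqP : q ∉ P)
    {c c' : Fin 3 → ℝ} (hc : c ∈ P) (hc' : c' ∈ P')
    {s t u r : ℝ} (hs : 0 < s) (ht : 0 < t) (hr : 0 ≤ r)
    (hrel : s • c + t • c' = (s + t + r - u) • a + u • b)
    {x0 d : Fin 3 → ℝ} {t0 τ l : ℝ} (ht0 : t0 < τ) (hl : 0 < l)
    (hx0 : x0 + t0 • d ∈ coneOf P) (hτ : x0 + τ • d = l • q) :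
    φ' d ≤ φ d ∧ ∃ ε : ℝ, 0 < ε ∧ ∀ t', τ < t' → t' < τ + ε →
      (x0 + t' • d ∈ coneOf P' ∧ φ' (x0 + t' • d) ≤ φ (x0 + t' • d)) := by
  have hφa := h.closure_one ha
  have hφb := h.closure_one hb
  have hφc := h.one c hc
  have hφa' := h'.closure_one ha'
  have hφb' := h'.closure_one hb'
  have hφc' := h'.one c' hc'
  -- linear independence
  have hli : LinearIndependent ℝ ![a, b, c] := by
    rw [Fintype.linearIndependent_iff]
    intro g hg
    rw [Fin.sum_univ_three] at hg
    simp only [Matrix.cons_val_zero, Matrix.cons_val_one, Matrix.cons_val_two, Matrix.head_cons,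
      Matrix.tail_cons, Matrix.cons_val] at hg
    have hsum : g 0 + g 1 + g 2 = 0 := by
      have := congrArg φ hg
      simpa [map_add, map_smul, hφa, hφb, hφc] using this
    have hg2 : g 2 = 0 := by
      by_contra hg2
      -- c lies on the line
      have : c = (1 - (-(g 1) / g 2)) • a + (-(g 1) / g 2) • b := by
        have h1 : g 2 • c = (-(g 0)) • a + (-(g 1)) • b := by
          have := hg
          rw [neg_smul, neg_smul]
          rw [add_comm] at this
          rw [eq_neg_of_add_eq_zero_left this]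
          abel
        have h2 : c = (g 2)⁻¹ • ((-(g 0)) • a + (-(g 1)) • b) := by
          rw [← h1, smul_smul, inv_mul_cancel₀ hg2, one_smul]
        rw [h2, smul_add, smul_smul, smul_smul]
        congr 2
        · have : g 0 = - g 1 - g 2 := by linarith
          rw [this]; field_simp; ring
        · field_simp
      exact h.line_disjoint ha hb hq hqP _ (this ▸ hc)
    have hg1 : g 1 = 0 := by
      by_contra hg1
      apply hab
      have h0 : g 0 = - g 1 := by linarith
      rw [hg2, h0, zero_smul, add_zero, neg_smul, neg_add_eq_zero] at hg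
      have := congrArg (fun z => (g 1)⁻¹ • z) hg
      simpa [smul_smul, inv_mul_cancel₀ hg1] using this
    have hg0 : g 0 = 0 := by linarith
    intro i
    fin_cases i
    · exact hg0
    · exact hg1
    · exact hg2
  have hcard : Fintype.card (Fin 3) = Module.finrank ℝ (Fin 3 → ℝ) := by simp
  set bas := basisOfLinearIndependentOfCardEqFinrank hli hcard with hbas
  have hb0 : bas 0 = a := by simp [hbas]
  have hb1 : bas 1 = b := by simp [hbas]
  have hb2 : bas 2 = c := by simp [hbas]
  have hexp : ∀ x, x = bas.coord 0 x • a + bas.coord 1 x • b + bas.coord 2 x • c := by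
    intro x
    have := bas.sum_repr x
    rw [Fin.sum_univ_three, hb0, hb1, hb2] at this
    simpa using this.symm
  set γ := bas.coord 2 with hγ
  have hγa : γ a = 0 := by
    rw [hγ, ← hb0]; simp
  have hγb : γ b = 0 := by
    rw [hγ, ← hb1]; simp
  have hγc : γ c = 1 := by
    rw [hγ, ← hb2]; simp
  have hγpos : ∀ z ∈ P, 0 < γ z := by
    intro z hz
    by_contra hneg
    have hneg' : γ z ≤ 0 := not_lt.mp hneg
    have h1 : 0 < 1 - γ z := by linarith
    have hwP : (1 / (1 - γ z)) • z + ((-γ z) / (1 - γ z)) • c ∈ P := by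
      refine h.conv hz hc (by positivity) (div_nonneg (by linarith) h1.le) ?_
      field_simp
      ring
    set w := (1 / (1 - γ z)) • z + ((-γ z) / (1 - γ z)) • c with hw
    have hγw : γ w = 0 := by
      rw [hw, map_add, map_smul, map_smul, hγc]
      simp only [smul_eq_mul]
      field_simp
      ring
    have hw2 := hexp w
    rw [hγw, zero_smul, add_zero] at hw2
    have hφw : bas.coord 0 w + bas.coord 1 w = 1 := by
      have := congrArg φ hw2
      rw [h.one w hwP] at this
      simpa [map_add, map_smul, hφa, hφb] using this.symm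
    have hw3 : w = (1 - bas.coord 1 w) • a + bas.coord 1 w • b := by
      have : 1 - bas.coord 1 w = bas.coord 0 w := by linarith
      rw [this]; exact hw2
    exact h.line_disjoint ha hb hq hqP _ (hw3 ▸ hwP)
  -- q has positive coordinates
  obtain ⟨q1, q2, hq1, hq2, hq12, rfl⟩ := hq
  have hγd : γ d < 0 := by
    have h1 : 0 < γ (x0 + t0 • d) := by
      obtain ⟨m, hm, p, hp, hmp⟩ := hx0
      rw [hmp, map_smul, smul_eq_mul]
      exact mul_pos hm (hγpos p hp)
    have h2 : γ (x0 + τ • d) = 0 := by
      rw [hτ]; simp [map_smul, map_add, hγa, hγb]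
    rw [map_add, map_smul, smul_eq_mul] at h1 h2
    have h3 : (τ - t0) * γ d < 0 := by nlinarith
    by_contra hcon
    have : 0 ≤ (τ - t0) * γ d := mul_nonneg (by linarith) (not_lt.mp hcon)
    linarith
  -- express c through a, b, c'
  have hcexp : c = ((s + t + r - u) / s) • a + (u / s) • b + (-(t / s)) • c' := by
    have h1 : s • c = (s + t + r - u) • a + u • b - t • c' := by
      rw [← hrel]; abel
    have h2 : c = s⁻¹ • ((s + t + r - u) • a + u • b - t • c') := by
      rw [← h1, smul_smul, inv_mul_cancel₀ hs.ne', one_smul]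
    nth_rewrite 1 [h2]
    ext i
    simp only [Pi.add_apply, Pi.sub_apply, Pi.smul_apply, smul_eq_mul]
    field_simp
    ring
  have hφ'c : φ' c = 1 + r / s := by
    rw [hcexp, map_add, map_add, map_smul, map_smul, map_smul, hφa', hφb', hφc']
    simp only [smul_eq_mul, mul_one]
    field_simp
    ring
  have hdiff : ∀ x, φ' x = φ x + (r / s) * γ x := by
    intro x
    rw [hexp x]
    simp only [map_add, map_smul, hφa, hφb, hφc, hφa', hφb', hφ'c, smul_eq_mul, hγa, hγb, hγc]
    ring
  have hrs : 0 ≤ r / s := div_nonneg hr hs.le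
  refine ⟨?_, ?_⟩
  · rw [hdiff d]
    have : (r / s) * γ d ≤ 0 := mul_nonpos_of_nonneg_of_nonpos hrs hγd.le
    linarith
  · set A1 := bas.coord 0 d + γ d * ((s + t + r - u) / s) with hA1
    set B1 := bas.coord 1 d + γ d * (u / s) with hB1
    -- choose epsilon
    have hpos : ∃ ε : ℝ, 0 < ε ∧ ∀ k, 0 < k → k < ε → 0 < l * q1 + k * A1 ∧ 0 < l * q2 + k * B1 := by
      refine ⟨min (l * q1 / (|A1| + 1)) (l * q2 / (|B1| + 1)), ?_, ?_⟩
      · apply lt_min
        · have := abs_nonneg A1; positivity
        · have := abs_nonneg B1; positivity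
      · intro k hk hke
        have hk1 : k < l * q1 / (|A1| + 1) := lt_of_lt_of_le hke (min_le_left _ _)
        have hk2 : k < l * q2 / (|B1| + 1) := lt_of_lt_of_le hke (min_le_right _ _)
        have hA := abs_nonneg A1
        have hB := abs_nonneg B1
        rw [lt_div_iff₀ (by positivity)] at hk1 hk2
        have hA' := neg_abs_le A1
        have hB' := neg_abs_le B1
        constructor <;> nlinarith
    obtain ⟨ε, hε, hεk⟩ := hpos
    refine ⟨ε, hε, fun t' h1 h2 => ?_⟩
    have hx : x0 + t' • d = l • (q1 • a + q2 • b) + (t' - τ) • d := by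
      rw [← hτ, sub_smul]; abel
    obtain ⟨hk1, hk2⟩ := hεk (t' - τ) (by linarith) (by linarith)
    have hx2 : x0 + t' • d = (l * q1 + (t' - τ) * A1) • a + (l * q2 + (t' - τ) * B1) • b +
        ((t' - τ) * (-γ d) * (t / s)) • c' := by
      rw [hx, hA1, hB1]
      have hd := hexp d
      ext i
      have hdi := congrFun hd i
      have hci := congrFun hcexp i
      simp only [Pi.add_apply, Pi.smul_apply, smul_eq_mul] at hdi hci ⊢
      rw [hdi, hci]
      ring
    have hc'pos : 0 < (t' - τ) * (-γ d) * (t / s) := by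
      have h3 : 0 < t' - τ := by linarith
      have h4 : 0 < -γ d := by linarith
      positivity
    refine ⟨?_, ?_⟩
    · rw [hx2]
      exact h'.combo_mem ha' hb' hc' hk1 hk2 hc'pos
    · rw [hdiff (x0 + t' • d)]
      have hγx : γ (x0 + t' • d) = (t' - τ) * γ d := by
        rw [hx]; simp [map_add, map_smul, hγa, hγb]
      rw [hγx]
      have : (r / s) * ((t' - τ) * γ d) ≤ 0 := by
        apply mul_nonpos_of_nonneg_of_nonpos hrs
        exact mul_nonpos_of_nonneg_of_nonpos (by linarith) hγd.le
      linarith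

end PolyData

end Pool.Agent.R337
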