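import Mathlib
import Pool.Agent.R337.SailAlg

/-!
Helper file (helper337) for MP_7af359_nt: eigenbasis and the group of commuting matrices.
-/

namespace Pool.Agent.R337

open Matrix Polynomial Module

/-- A basis of real eigenvectors with distinct eigenvalues. -/
theorem exists_eigenbasis {A : Matrix (Fin 3) (Fin 3) ℤ} (hirr : Irreducible (matQ A).charpoly)
    (hreal : (matR A).charpoly.Splits) :
    ∃ (e : Basis (Fin 3) ℝ (Fin 3 → ℝ)) (α : Fin 3 → ℝ), Function.Injective α ∧
      ∀ j, (matR A) *ᵥ (e j) = α j • e j := by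
  have hmap : (matR A).charpoly = (matQ A).charpoly.map (algebraMap ℚ ℝ) := by
    have h1 : matR A = (matQ A).map (algebraMap ℚ ℝ) := by
      ext i j
      simp [matR, matQ]
    rw [h1, Matrix.charpoly_map]
  have hsep : (matR A).charpoly.Separable := by
    rw [hmap]
    exact hirr.separable.map
  have hnd : (matR A).charpoly.roots.Nodup := nodup_roots hsep
  have hcard : (matR A).charpoly.roots.card = 3 := by
    rw [← hreal.natDegree_eq_card_roots, Matrix.charpoly_natDegree_eq_dim]; simp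
  have hcard' : (matR A).charpoly.roots.toFinset.card = 3 := by
    rw [Multiset.toFinset_card_of_nodup hnd, hcard]
  set s := (matR A).charpoly.roots.toFinset with hs
  let emb := s.orderEmbOfFin hcard'
  set α : Fin 3 → ℝ := fun j => emb j with hα
  have hαinj : Function.Injective α := emb.injective
  have hroot : ∀ j, (matR A).charpoly.eval (α j) = 0 := by
    intro j
    have h1 : α j ∈ s := Finset.orderEmbOfFin_mem s hcard' j
    rw [hs, Multiset.mem_toFinset] at h1
    exact (mem_roots'.mp h1).2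
  have hvec : ∀ j, ∃ v : Fin 3 → ℝ, v ≠ 0 ∧ (matR A) *ᵥ v = α j • v := by
    intro j
    have h1 := hroot j
    rw [Matrix.eval_charpoly] at h1
    obtain ⟨v, hv, hv2⟩ := Matrix.exists_mulVec_eq_zero_iff.mpr h1
    refine ⟨v, hv, ?_⟩
    rw [Matrix.sub_mulVec, sub_eq_zero] at hv2
    rw [← hv2]
    ext i
    simp [Matrix.scalar_apply, Matrix.mulVec_diagonal]
  choose v hv0 hv using hvec
  have hli : LinearIndependent ℝ v := by
    apply Module.End.eigenvectors_linearIndependent' (Matrix.toLin' (matR A)) α hαinj v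
    intro j
    rw [Module.End.hasEigenvector_iff, Module.End.mem_eigenspace_iff]
    exact ⟨by rw [Matrix.toLin'_apply]; exact hv j, hv0 j⟩
  have hcard3 : Fintype.card (Fin 3) = Module.finrank ℝ (Fin 3 → ℝ) := by simp
  refine ⟨basisOfLinearIndependentOfCardEqFinrank hli hcard3, α, hαinj, fun j => ?_⟩
  rw [coe_basisOfLinearIndependentOfCardEqFinrank]
  exact hv j

/-- Matrices commuting with `A` are diagonal in the eigenbasis. -/
theorem commute_diag {A g : Matrix (Fin 3) (Fin 3) ℤ} (hcomm : g * A = A * g)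
    (e : Basis (Fin 3) ℝ (Fin 3 → ℝ)) (α : Fin 3 → ℝ) (hα : Function.Injective α)
    (he : ∀ j, (matR A) *ᵥ (e j) = α j • e j) (j : Fin 3) :
    (matR g) *ᵥ (e j) = e.coord j ((matR g) *ᵥ (e j)) • e j := by
  set y := (matR g) *ᵥ (e j) with hy
  have hcommR : matR g * matR A = matR A * matR g := by
    have h1 : matR g * matR A = matR (g * A) := (Matrix.map_mul (f := Int.castRingHom ℝ)).symm
    have h2 : matR A * matR g = matR (A * g) := (Matrix.map_mul (f := Int.castRingHom ℝ)).symm
    rw [h1, h2, hcomm]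
  have hAy : (matR A) *ᵥ y = α j • y := by
    rw [hy, mulVec_mulVec, ← hcommR, ← mulVec_mulVec, he, mulVec_smul]
  have hexp : y = ∑ i, e.coord i y • e i := by simpa using (e.sum_repr y).symm
  have hAy2 : (matR A) *ᵥ y = ∑ i, (e.coord i y * α i) • e i := by
    nth_rewrite 1 [hexp]
    rw [Matrix.mulVec_sum]
    refine Finset.sum_congr rfl fun i _ => ?_
    rw [Matrix.mulVec_smul, he i, smul_smul]
  have hcoord : ∀ i, e.coord i ((matR A) *ᵥ y) = e.coord i y * α i := by
    intro i
    rw [hAy2, map_sum]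
    simp only [map_smul, smul_eq_mul, Module.Basis.coord_apply, Module.Basis.repr_self]
    rw [Finset.sum_eq_single i]
    · simp
    · intro k _ hk
      rw [Finsupp.single_eq_of_ne (by first | exact hk | exact hk.symm)]; ring
    · simp
  have hzero : ∀ i, i ≠ j → e.coord i y = 0 := by
    intro i hij
    have h1 := hcoord i
    rw [hAy, map_smul, smul_eq_mul] at h1
    have h2 : (α j - α i) * e.coord i y = 0 := by linarith
    rcases mul_eq_zero.mp h2 with h3 | h3
    · exact absurd (hα (sub_eq_zero.mp h3)).symm hij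
    · exact h3
  nth_rewrite 1 [hexp]
  rw [Finset.sum_eq_single j]
  · intro i _ hij
    rw [hzero i hij, zero_smul]
  · simp

/-- The determinant in an eigenbasis. -/
theorem det_eq_prod {g : Matrix (Fin 3) (Fin 3) ℤ} (e : Basis (Fin 3) ℝ (Fin 3 → ℝ))
    (μ : Fin 3 → ℝ) (hμ : ∀ j, (matR g) *ᵥ (e j) = μ j • e j) :
    ((g.det : ℤ) : ℝ) = ∏ j, μ j := by
  have h1 : ((g.det : ℤ) : ℝ) = (matR g).det := by
    have : ((Int.castRingHom ℝ) g.det) = (matR g).det := by
      rw [RingHom.map_det]; rfl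
    rw [← this]; simp
  have h2 : LinearMap.toMatrix e e (Matrix.toLin' (matR g)) = Matrix.diagonal μ := by
    ext i j
    rw [LinearMap.toMatrix_apply, Matrix.toLin'_apply, hμ j]
    simp only [map_smul, Basis.repr_self, Finsupp.smul_single, smul_eq_mul, mul_one]
    by_cases hij : i = j
    · subst hij; simp
    · rw [Matrix.diagonal_apply_ne _ hij, Finsupp.single_eq_of_ne hij]
  rw [h1, ← LinearMap.det_toLin', ← LinearMap.det_toMatrix e, h2, Matrix.det_diagonal]

/-- Elements of the positive commuting group in an eigenbasis. -/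
theorem xi_diag {A : Matrix (Fin 3) (Fin 3) ℤ} {g : GL (Fin 3) ℤ}
    (hcomm : (g : Matrix (Fin 3) (Fin 3) ℤ) * A = A * g)
    (hpos : ∀ (μ : ℝ) (x : Fin 3 → ℝ), x ≠ 0 →
      (matR (g : Matrix (Fin 3) (Fin 3) ℤ)) *ᵥ x = μ • x → 0 < μ)
    (e : Basis (Fin 3) ℝ (Fin 3 → ℝ)) (α : Fin 3 → ℝ) (hα : Function.Injective α)
    (he : ∀ j, (matR A) *ᵥ (e j) = α j • e j) :
    ∃ μ : Fin 3 → ℝ, (∀ j, 0 < μ j) ∧ (∏ j, μ j = 1) ∧
      ∀ j, (matR (g : Matrix (Fin 3) (Fin 3) ℤ)).mulVec (e j) = μ j • e j := by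
  have h1 : ∀ j, (matR (g : Matrix (Fin 3) (Fin 3) ℤ)) *ᵥ (e j) =
      e.coord j ((matR (g : Matrix (Fin 3) (Fin 3) ℤ)) *ᵥ (e j)) • e j :=
    fun j => commute_diag hcomm e α hα he j
  refine ⟨fun j => e.coord j ((matR (g : Matrix (Fin 3) (Fin 3) ℤ)) *ᵥ (e j)), ?_, ?_, h1⟩
  · intro j
    exact hpos _ (e j) (e.ne_zero j) (h1 j)
  · rw [← det_eq_prod e _ h1]
    have hprodpos : (0 : ℝ) < (((g : Matrix (Fin 3) (Fin 3) ℤ).det : ℤ) : ℝ) := by
      rw [det_eq_prod e _ h1]
      exact Finset.prod_pos fun j _ => hpos _ (e j) (e.ne_zero j) (h1 j)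
    have hunit : IsUnit (g : Matrix (Fin 3) (Fin 3) ℤ).det :=
      (Matrix.isUnit_iff_isUnit_det _).mp g.isUnit
    rcases Int.isUnit_iff.mp hunit with h2 | h2
    · rw [h2]; norm_num
    · rw [h2] at hprodpos; norm_num at hprodpos

/-- Coordinates of nonzero integer points in the eigenbasis are nonzero. -/
theorem coord_ne_zero {A : Matrix (Fin 3) (Fin 3) ℤ} (hirr : Irreducible (matQ A).charpoly)
    (e : Basis (Fin 3) ℝ (Fin 3 → ℝ)) (α : Fin 3 → ℝ)
    (he : ∀ j, (matR A) *ᵥ (e j) = α j • e j) {v : Fin 3 → ℤ} (hv : v ≠ 0) (j : Fin 3) :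
    e.coord j (toR v) ≠ 0 := by
  set w : Fin 3 → ℝ := fun i => e.coord j (Pi.single i 1) with hw
  have hcoord : ∀ x, e.coord j x = x ⬝ᵥ w := by
    intro x
    have h1 : x = ∑ i, x i • (Pi.single i (1 : ℝ) : Fin 3 → ℝ) := by
      ext k
      simp [Finset.sum_apply, Pi.single_apply]
    nth_rewrite 1 [h1]
    rw [map_sum]
    simp only [map_smul, smul_eq_mul, dotProduct, hw]
  have hcA : ∀ x, e.coord j ((matR A) *ᵥ x) = α j * e.coord j x := by
    intro x
    have hexp : x = ∑ i, e.coord i x • e i := by simpa using (e.sum_repr x).symm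
    have h2 : (matR A) *ᵥ x = ∑ i, (e.coord i x * α i) • e i := by
      nth_rewrite 1 [hexp]
      rw [Matrix.mulVec_sum]
      refine Finset.sum_congr rfl fun i _ => ?_
      rw [Matrix.mulVec_smul, he i, smul_smul]
    rw [h2, map_sum]
    simp only [map_smul, smul_eq_mul, Module.Basis.coord_apply, Module.Basis.repr_self]
    rw [Finset.sum_eq_single j]
    · simp; ring
    · intro k _ hk
      rw [Finsupp.single_eq_of_ne (by first | exact hk | exact hk.symm)]; ring
    · simp
  have hw0 : w ≠ 0 := by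
    intro h0
    have h1 := hcoord (e j)
    rw [h0] at h1
    simp at h1
  have hMw : matR Aᵀ *ᵥ w = α j • w := by
    funext i
    have h1 := hcA (Pi.single i 1)
    rw [hcoord] at h1
    have h2 : (matR Aᵀ *ᵥ w) i = ((matR A) *ᵥ (Pi.single i 1)) ⬝ᵥ w := by
      rw [Matrix.mulVec_single_one]
      simp [Matrix.mulVec, dotProduct, matR, Matrix.col, Matrix.transpose_apply]
    rw [h2, h1]
    rfl
  have hirr' : Irreducible (matQ Aᵀ).charpoly := by
    have : matQ Aᵀ = (matQ A)ᵀ := rfl
    rw [this, Matrix.charpoly_transpose]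
    exact hirr
  rw [hcoord]
  exact dot_ne_zero hirr' hw0 hMw hv

end Pool.Agent.R337
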