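import Mathlib
import Pool.Agent.R337.SailAlg
import Pool.Agent.R337.SailGeom

/-!
Helper file (helper337) for MP_7af359_nt: the descent along an eigendirection.
-/

namespace Pool.Agent.R337

open Set

/-- No straight ray can run through the cones over infinitely many polygons. -/
theorem no_descent (Q : Set (Set (Fin 3 → ℝ)))
    (hpoly : ∀ P ∈ Q, ∃ φ, PolyData P φ)
    (hfront : ∀ P ∈ Q, ∀ x ∈ closure P, x ∉ P → (∃ z : Fin 3 → ℤ, x = toR z) ∨
      ∃ a b : Fin 3 → ℝ, a ≠ b ∧ x ∈ openSegment ℝ a b ∧ a ∈ closure P ∧ b ∈ closure P ∧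
        ∃ P' ∈ Q, a ∈ closure P' ∧ b ∈ closure P' ∧ ∃ c ∈ P, ∃ c' ∈ P', ∃ s t u r : ℝ,
          0 < s ∧ 0 < t ∧ 0 ≤ r ∧ s • c + t • c' = (s + t + r - u) • a + u • b)
    {P0 : Set (Fin 3 → ℝ)} (hP0 : P0 ∈ Q) {φ0 : (Fin 3 → ℝ) →ₗ[ℝ] ℝ} (hφ0 : PolyData P0 φ0)
    {x0 d : Fin 3 → ℝ} (hx0 : x0 ∈ coneOf P0) (hd : φ0 d < 0)
    (hgen : ∀ z : Fin 3 → ℤ, ∀ t l : ℝ, x0 + t • d ≠ l • toR z)
    (hfin : Set.Finite {P | P ∈ Q ∧ ∃ t : ℝ, 0 ≤ t ∧ ∃ l : ℝ, 0 < l ∧ l ≤ φ0 x0 ∧ ∃ p ∈ P,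
      x0 + t • d = l • p}) : False := by
  have hne0 : ∀ t : ℝ, x0 + t • d ≠ 0 := by
    intro t h
    exact hgen 0 t 0 (by simpa using h)
  set G : Set (Set (Fin 3 → ℝ)) := {P | P ∈ Q ∧ ∃ φ, PolyData P φ ∧ φ d ≤ φ0 d ∧
    ∃ t : ℝ, 0 ≤ t ∧ x0 + t • d ∈ coneOf P ∧ φ (x0 + t • d) ≤ φ0 x0 + t * φ0 d} with hG
  have hGfin : G.Finite := by
    apply hfin.subset
    rintro P ⟨hPQ, φ, hφ, hφd, t, ht, hxt, hle⟩
    refine ⟨hPQ, t, ht, φ (x0 + t • d), ?_, ?_, (φ (x0 + t • d))⁻¹ • (x0 + t • d), ?_, ?_⟩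
    · exact (hφ.mem_cone_iff.mp hxt).1
    · have : t * φ0 d ≤ 0 := mul_nonpos_of_nonneg_of_nonpos ht hd.le
      linarith
    · exact (hφ.mem_cone_iff.mp hxt).2
    · rw [smul_smul, mul_inv_cancel₀ (hφ.mem_cone_iff.mp hxt).1.ne', one_smul]
  have hGne : G.Nonempty := by
    refine ⟨P0, hP0, φ0, hφ0, le_refl _, 0, le_refl _, ?_, ?_⟩
    · simpa using hx0
    · simp
  -- bounded exit sets
  have hbdd : ∀ P φ, PolyData P φ → φ d < 0 →
      BddAbove {t : ℝ | 0 ≤ t ∧ x0 + t • d ∈ coneOf P} := by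
    intro P φ hφ hφd
    refine ⟨φ x0 / (-φ d), ?_⟩
    rintro t ⟨_, ht⟩
    have h1 := (hφ.mem_cone_iff.mp ht).1
    rw [map_add, map_smul, smul_eq_mul] at h1
    rw [le_div_iff₀ (by linarith)]
    linarith
  obtain ⟨P, hPG, hmax⟩ := Set.exists_max_image G
    (fun P => sSup {t : ℝ | 0 ≤ t ∧ x0 + t • d ∈ coneOf P}) hGfin hGne
  obtain ⟨hPQ, φ, hφ, hφd, t1, ht1, hxt1, hle1⟩ := hPG
  have hφdneg : φ d < 0 := lt_of_le_of_lt hφd hd
  set E : Set ℝ := {t : ℝ | 0 ≤ t ∧ x0 + t • d ∈ coneOf P} with hE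
  have ht1E : t1 ∈ E := ⟨ht1, hxt1⟩
  have hEb : BddAbove E := hbdd P φ hφ hφdneg
  set T := sSup E with hT
  have ht1T : t1 ≤ T := le_csSup hEb ht1E
  have hcont : Continuous fun t : ℝ => x0 + t • d := by fun_prop
  have hTnot : x0 + T • d ∉ coneOf P := by
    intro hmem
    have hopen : IsOpen ((fun t : ℝ => x0 + t • d) ⁻¹' coneOf P) := hφ.opn.preimage hcont
    obtain ⟨ε, hε, hball⟩ := Metric.isOpen_iff.mp hopen T hmem
    have h1 : T + ε / 2 ∈ E := by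
      refine ⟨by linarith, ?_⟩
      apply hball
      rw [Metric.mem_ball, Real.dist_eq]
      have : T + ε / 2 - T = ε / 2 := by ring
      rw [this, abs_of_pos (by linarith)]
      linarith
    have := le_csSup hEb h1
    linarith
  have ht1T' : t1 < T := by
    rcases ht1T.lt_or_eq with h | h
    · exact h
    · exact absurd (h ▸ hxt1) hTnot
  set y := x0 + T • d with hy
  have hycl : y ∈ closure (coneOf P) := by
    have h1 : T ∈ closure E := csSup_mem_closure ⟨t1, ht1E⟩ hEb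
    have h2 : (fun t : ℝ => x0 + t • d) T ∈ closure ((fun t : ℝ => x0 + t • d) '' E) :=
      image_closure_subset_closure_image hcont ⟨T, h1, rfl⟩
    refine closure_mono ?_ h2
    rintro _ ⟨t, ht, rfl⟩
    exact ht.2
  have hφcont : Continuous φ := φ.continuous_of_finiteDimensional
  have hφy : 0 < φ y := by
    obtain ⟨R, hR⟩ := hφ.bdd.exists_norm_le
    have hclosed : IsClosed {x : Fin 3 → ℝ | ‖x‖ ≤ R * φ x} :=
      isClosed_le continuous_norm (continuous_const.mul hφcont)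
    have hsub : coneOf P ⊆ {x : Fin 3 → ℝ | ‖x‖ ≤ R * φ x} := by
      rintro x ⟨l, hl, p, hp, rfl⟩
      have h1 := hR p hp
      simp only [mem_ofPred_eq, norm_smul, Real.norm_eq_abs, abs_of_pos hl, map_smul,
        hφ.one p hp, smul_eq_mul, mul_one]
      nlinarith
    have h1 : ‖y‖ ≤ R * φ y := closure_minimal hsub hclosed hycl
    have h2 : 0 < ‖y‖ := norm_pos_iff.mpr (hne0 T)
    have hRpos : 0 ≤ R := by
      obtain ⟨p, hp⟩ := hφ.ne
      exact le_trans (norm_nonneg p) (hR p hp)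
    by_contra hcon
    have : R * φ y ≤ 0 := mul_nonpos_of_nonneg_of_nonpos hRpos (not_lt.mp hcon)
    linarith
  set q := (φ y)⁻¹ • y with hq
  have hyq : y = φ y • q := by
    rw [hq, smul_smul, mul_inv_cancel₀ hφy.ne', one_smul]
  have hqcl : q ∈ closure P := by
    have hca : ContinuousAt (fun x : Fin 3 → ℝ => (φ x)⁻¹ • x) y :=
      ContinuousAt.smul (f := fun x => (φ x)⁻¹) (g := fun x => x)
        ((hφcont.continuousAt).inv₀ hφy.ne') continuousAt_id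
    have h1 := hca.continuousWithinAt.mem_closure_image hycl
    refine closure_mono ?_ h1
    rintro _ ⟨x, hx, rfl⟩
    exact (hφ.mem_cone_iff.mp hx).2
  have hqP : q ∉ P := by
    intro hqP
    exact hTnot ⟨φ y, hφy, q, hqP, hyq⟩
  rcases hfront P hPQ q hqcl hqP with ⟨z, hz⟩ | ⟨a, b, hab, hqab, ha, hb, P', hP'Q, ha', hb',
    c, hc, c', hc', s, t, u, r, hs, ht, hr, hrel⟩
  · apply hgen z T (φ y)
    rw [← hz]
    exact hyq
  · obtain ⟨φ', hφ'⟩ := hpoly P' hP'Q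
    obtain ⟨hd', ε, hε, hcross⟩ := hφ.crossing hφ' hab ha hb ha' hb' hqab hqP hc hc' hs ht hr hrel
      ht1T' hφy hxt1 hyq
    obtain ⟨hmem, hle⟩ := hcross (T + ε / 2) (by linarith) (by linarith)
    have hP'G : P' ∈ G := by
      refine ⟨hP'Q, φ', hφ', le_trans hd' hφd, T + ε / 2, by linarith, hmem, ?_⟩
      refine le_trans hle ?_
      rw [map_add, map_smul, smul_eq_mul] at hle1 ⊢
      nlinarith
    have h1 := hmax P' hP'G
    beta_reduce at h1
    have h2 : T + ε / 2 ≤ sSup {t : ℝ | 0 ≤ t ∧ x0 + t • d ∈ coneOf P'} :=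
      le_csSup (hbdd P' φ' hφ' (lt_of_le_of_lt (le_trans hd' hφd) hd)) ⟨by linarith, hmem⟩
    linarith

/-- Only finitely many integer matrices are diagonal with bounded entries in a fixed basis. -/
theorem finite_bounded (e : Module.Basis (Fin 3) ℝ (Fin 3 → ℝ)) (C : ℝ) :
    Set.Finite {g : GL (Fin 3) ℤ | ∃ μ : Fin 3 → ℝ, (∀ j, |μ j| ≤ C) ∧
      ∀ j, (matR (g : Matrix (Fin 3) (Fin 3) ℤ)).mulVec (e j) = μ j • e j} := by
  set K : ℝ := ∑ k, ∑ i, ∑ j, |e.coord j (Pi.single i 1)| * C * |e j k| with hK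
  have key : ∀ g : GL (Fin 3) ℤ, g ∈ {g : GL (Fin 3) ℤ | ∃ μ : Fin 3 → ℝ, (∀ j, |μ j| ≤ C) ∧
      ∀ j, (matR (g : Matrix (Fin 3) (Fin 3) ℤ)).mulVec (e j) = μ j • e j} →
      ∀ k i, |(g : Matrix (Fin 3) (Fin 3) ℤ) k i| ≤ ⌈K⌉ := by
    rintro g ⟨μ, hμ, hg⟩ k i
    have hC : 0 ≤ C := le_trans (abs_nonneg _) (hμ 0)
    have h1 : (Pi.single i 1 : Fin 3 → ℝ) = ∑ j, e.coord j (Pi.single i 1) • e j := by
      simpa using (e.sum_repr (Pi.single i 1)).symm
    have h2 : (matR (g : Matrix (Fin 3) (Fin 3) ℤ)).mulVec (Pi.single i 1) =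
        ∑ j, (e.coord j (Pi.single i 1) * μ j) • e j := by
      nth_rewrite 1 [h1]
      rw [Matrix.mulVec_sum]
      refine Finset.sum_congr rfl fun j _ => ?_
      rw [Matrix.mulVec_smul, hg j, smul_smul]
    have h3 : ((g : Matrix (Fin 3) (Fin 3) ℤ) k i : ℝ) =
        ∑ j, (e.coord j (Pi.single i 1) * μ j) * e j k := by
      have := congrFun h2 k
      rw [Matrix.mulVec_single_one] at this
      simpa [matR, Matrix.col, Finset.sum_apply] using this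
    have h4 : |((g : Matrix (Fin 3) (Fin 3) ℤ) k i : ℝ)| ≤ K := by
      rw [h3]
      refine le_trans (Finset.abs_sum_le_sum_abs _ _) ?_
      have h5 : ∑ j, |(e.coord j (Pi.single i 1) * μ j) * e j k| ≤
          ∑ j, |e.coord j (Pi.single i 1)| * C * |e j k| := by
        refine Finset.sum_le_sum fun j _ => ?_
        rw [abs_mul, abs_mul]
        gcongr
        exact hμ j
      refine le_trans h5 ?_
      have h6 : ∑ j, |e.coord j (Pi.single i 1)| * C * |e j k| ≤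
          ∑ i, ∑ j, |e.coord j (Pi.single i 1)| * C * |e j k| :=
        Finset.single_le_sum (f := fun i => ∑ j, |e.coord j (Pi.single i 1)| * C * |e j k|)
          (fun i _ => Finset.sum_nonneg fun j _ => by positivity) (Finset.mem_univ i)
      refine le_trans h6 ?_
      exact Finset.single_le_sum
        (f := fun k => ∑ i, ∑ j, |e.coord j (Pi.single i 1)| * C * |e j k|)
        (fun k _ => Finset.sum_nonneg fun i _ => Finset.sum_nonneg fun j _ => by positivity)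
        (Finset.mem_univ k)
    have h7 : ((|(g : Matrix (Fin 3) (Fin 3) ℤ) k i| : ℤ) : ℝ) ≤ (⌈K⌉ : ℝ) := by
      rw [Int.cast_abs]
      exact le_trans h4 (Int.le_ceil K)
    exact_mod_cast h7
  have hfin : Set.Finite {f : Fin 3 → Fin 3 → ℤ | ∀ k i, f k i ∈ Set.Icc (-⌈K⌉) ⌈K⌉} :=
    Set.Finite.pi' fun _ => Set.Finite.pi' fun _ => Set.finite_Icc _ _
  refine Set.Finite.of_finite_image (f := fun g : GL (Fin 3) ℤ =>
    (fun k i => (g : Matrix (Fin 3) (Fin 3) ℤ) k i : Fin 3 → Fin 3 → ℤ)) (hfin.subset ?_) ?_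
  · rintro _ ⟨g, hg, rfl⟩ k i
    have := key g hg k i
    exact abs_le.mp this
  · intro g _ h _ hgh
    apply Units.ext
    ext k i
    exact congrFun (congrFun hgh k) i

/-- Finiteness of the set of polygons met by a ray which stays away from the invariant planes. -/
theorem finite_met (e : Module.Basis (Fin 3) ℝ (Fin 3 → ℝ)) (Γ : Set (GL (Fin 3) ℤ))
    (hΓ : ∀ g ∈ Γ, ∃ μ : Fin 3 → ℝ, (∀ j, 0 < μ j) ∧ (∏ j, μ j = 1) ∧
      ∀ j, (matR (g : Matrix (Fin 3) (Fin 3) ℤ)).mulVec (e j) = μ j • e j)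
    (F0 : Set (Set (Fin 3 → ℝ))) (hF0 : F0.Finite) (hF0b : ∀ F ∈ F0, Bornology.IsBounded F)
    (Q : Set (Set (Fin 3 → ℝ)))
    (hQ : ∀ P ∈ Q, ∃ g ∈ Γ, ∃ F ∈ F0,
      P = (fun x => (matR (g : Matrix (Fin 3) (Fin 3) ℤ)).mulVec x) '' F)
    {x0 d : Fin 3 → ℝ} {f0 δ : ℝ} (hδ : 0 < δ)
    (hx : ∀ t : ℝ, 0 ≤ t → ∀ j, δ ≤ |e.coord j (x0 + t • d)|) :
    Set.Finite {P | P ∈ Q ∧ ∃ t : ℝ, 0 ≤ t ∧ ∃ l : ℝ, 0 < l ∧ l ≤ f0 ∧ ∃ p ∈ P,
      x0 + t • d = l • p} := by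
  -- a common bound for coordinates
  obtain ⟨R, hR0, hR⟩ : ∃ R : ℝ, 0 < R ∧ ∀ F ∈ F0, ∀ z ∈ F, ∀ j, |e.coord j z| ≤ R := by
    have hb : Bornology.IsBounded (⋃₀ F0) := (Bornology.isBounded_sUnion hF0).mpr hF0b
    obtain ⟨R1, hR1⟩ := hb.exists_norm_le
    have hcoord : ∀ j, ∃ K, 0 ≤ K ∧ ∀ z, |e.coord j z| ≤ K * ‖z‖ := by
      intro j
      set L := LinearMap.toContinuousLinearMap (e.coord j)
      exact ⟨‖L‖, norm_nonneg _, fun z => by
        have := L.le_opNorm z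
        simpa [L, Real.norm_eq_abs] using this⟩
    choose K hK0 hK using hcoord
    refine ⟨(∑ j, K j) * |R1| + 1, by
      have : 0 ≤ ∑ j, K j := Finset.sum_nonneg fun j _ => hK0 j
      positivity, ?_⟩
    intro F hF z hz j
    have h1 := hK j z
    have h2 : ‖z‖ ≤ |R1| := le_trans (hR1 z ⟨F, hF, hz⟩) (le_abs_self _)
    have h3 : K j ≤ ∑ j, K j := Finset.single_le_sum (fun j _ => hK0 j) (Finset.mem_univ j)
    have h4 : K j * ‖z‖ ≤ (∑ j, K j) * |R1| :=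
      mul_le_mul h3 h2 (norm_nonneg _) (Finset.sum_nonneg fun j _ => hK0 j)
    linarith
  -- exponent bound
  set c : ℝ := δ / ((|f0| + 1) * R) with hc
  have hcpos : 0 < c := by
    have := abs_nonneg f0
    positivity
  have hfing := finite_bounded e (c⁻¹ * c⁻¹)
  refine ((hfing.prod hF0).image (fun gF : GL (Fin 3) ℤ × Set (Fin 3 → ℝ) =>
    (fun x => (matR (gF.1 : Matrix (Fin 3) (Fin 3) ℤ)).mulVec x) '' gF.2)).subset ?_
  rintro P ⟨hPQ, t, ht, l, hl, hlf, p, hp, hxp⟩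
  obtain ⟨g, hg, F, hF, rfl⟩ := hQ P hPQ
  obtain ⟨μ, hμpos, hμprod, hμ⟩ := hΓ g hg
  refine ⟨(g, F), ⟨⟨μ, ?_, hμ⟩, hF⟩, rfl⟩
  obtain ⟨z, hz, rfl⟩ := hp
  -- coordinates of g z
  have hcoordg : ∀ j, e.coord j ((matR (g : Matrix (Fin 3) (Fin 3) ℤ)).mulVec z) =
      μ j * e.coord j z := by
    intro j
    have h1 : z = ∑ i, e.coord i z • e i := by simpa using (e.sum_repr z).symm
    have h2 : (matR (g : Matrix (Fin 3) (Fin 3) ℤ)).mulVec z =
        ∑ i, (e.coord i z * μ i) • e i := by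
      nth_rewrite 1 [h1]
      rw [Matrix.mulVec_sum]
      refine Finset.sum_congr rfl fun i _ => ?_
      rw [Matrix.mulVec_smul, hμ i, smul_smul]
    rw [h2, map_sum]
    simp only [map_smul, smul_eq_mul, Module.Basis.coord_apply, Module.Basis.repr_self]
    rw [Finset.sum_eq_single j]
    · simp; ring
    · intro i _ hij
      rw [Finsupp.single_eq_of_ne (by first | exact hij | exact hij.symm)]; ring
    · simp
  have hlow : ∀ j, c ≤ μ j := by
    intro j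
    have h1 := hx t ht j
    rw [hxp, map_smul, smul_eq_mul, hcoordg, abs_mul, abs_mul, abs_of_pos hl,
      abs_of_pos (hμpos j)] at h1
    have h2 := hR F hF z hz j
    have h3 : l ≤ |f0| + 1 := by
      have := le_abs_self f0
      linarith
    rw [hc, div_le_iff₀ (by positivity)]
    calc δ ≤ l * (μ j * |e.coord j z|) := h1
      _ ≤ (|f0| + 1) * (μ j * R) := by
          apply mul_le_mul h3
          · exact mul_le_mul_of_nonneg_left h2 (hμpos j).le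
          · exact mul_nonneg (hμpos j).le (abs_nonneg _)
          · positivity
      _ = μ j * ((|f0| + 1) * R) := by ring
  have hprod3 : μ 0 * μ 1 * μ 2 = 1 := by
    rw [← hμprod, Fin.prod_univ_three]
  intro j
  rw [abs_of_pos (hμpos j)]
  have hc0 := hlow 0
  have hc1 := hlow 1
  have hc2 := hlow 2
  have p0 := hμpos 0
  have p1 := hμpos 1
  have p2 := hμpos 2
  have hinv : c⁻¹ * c⁻¹ * (c * c) = 1 := by field_simp
  have hkey : ∀ x y z : ℝ, 0 < x → c ≤ y → c ≤ z → x * y * z = 1 → x ≤ c⁻¹ * c⁻¹ := by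
    intro x y z hx hy hz hxyz
    have h1 : c * c ≤ y * z := mul_le_mul hy hz hcpos.le (le_trans hcpos.le hy)
    have h2 : x * (c * c) ≤ 1 := by
      calc x * (c * c) ≤ x * (y * z) := mul_le_mul_of_nonneg_left h1 hx.le
        _ = 1 := by rw [← hxyz]; ring
    have h3 : x = x * (c * c) * (c⁻¹ * c⁻¹) := by field_simp
    rw [h3]
    calc x * (c * c) * (c⁻¹ * c⁻¹) ≤ 1 * (c⁻¹ * c⁻¹) :=
          mul_le_mul_of_nonneg_right h2 (by positivity)
      _ = c⁻¹ * c⁻¹ := one_mul _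
  fin_cases j
  · exact hkey _ _ _ p0 hc1 hc2 hprod3
  · have h3 : μ 1 * μ 0 * μ 2 = 1 := by rw [← hprod3]; ring
    exact hkey _ _ _ p1 hc0 hc2 h3
  · have h3 : μ 2 * μ 0 * μ 1 = 1 := by rw [← hprod3]; ring
    exact hkey _ _ _ p2 hc0 hc1 h3

end Pool.Agent.R337
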