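import Mathlib
import Pool.Agent.R337.SailAlg
import Pool.Agent.R337.SailGeom

/-!
Helper file (helper337) for MP_7af359_nt: open polygons as relative interiors of convex hulls.
-/

namespace Pool.Agent.R337

open Set Module

/-- All strictly positive convex combinations of the points `f i`, `i ∈ S`. -/
def oHull {ι : Type} (S : Finset ι) (f : ι → Fin 3 → ℝ) : Set (Fin 3 → ℝ) :=
  {x | ∃ w : ι → ℝ, (∀ i ∈ S, 0 < w i) ∧ ∑ i ∈ S, w i = 1 ∧ x = ∑ i ∈ S, w i • f i}

theorem oHull_image {ι : Type} (S : Finset ι) (f : ι → Fin 3 → ℝ)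
    (L : (Fin 3 → ℝ) →ₗ[ℝ] (Fin 3 → ℝ)) : L '' oHull S f = oHull S (fun i => L (f i)) := by
  ext x
  constructor
  · rintro ⟨_, ⟨w, hw, hw1, rfl⟩, rfl⟩
    exact ⟨w, hw, hw1, by rw [map_sum]; simp⟩
  · rintro ⟨w, hw, hw1, rfl⟩
    exact ⟨_, ⟨w, hw, hw1, rfl⟩, by rw [map_sum]; simp⟩

theorem mem_hull_iff {ι : Type} (S : Finset ι) (f : ι → Fin 3 → ℝ) (x : Fin 3 → ℝ) :
    x ∈ convexHull ℝ (f '' (S : Set ι)) ↔
      ∃ w : ι → ℝ, (∀ i ∈ S, 0 ≤ w i) ∧ ∑ i ∈ S, w i = 1 ∧ x = ∑ i ∈ S, w i • f i := by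
  classical
  constructor
  · intro hx
    have hconv : Convex ℝ {x | ∃ w : ι → ℝ, (∀ i ∈ S, 0 ≤ w i) ∧ ∑ i ∈ S, w i = 1 ∧
        x = ∑ i ∈ S, w i • f i} := by
      rintro _ ⟨w, hw, hw1, rfl⟩ _ ⟨w', hw', hw1', rfl⟩ a b ha hb hab
      refine ⟨fun i => a * w i + b * w' i, fun i hi => ?_, ?_, ?_⟩
      · have := hw i hi
        have := hw' i hi
        positivity
      · rw [Finset.sum_add_distrib, ← Finset.mul_sum, ← Finset.mul_sum, hw1, hw1']
        linarith
      · rw [Finset.smul_sum, Finset.smul_sum, ← Finset.sum_add_distrib]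
        refine Finset.sum_congr rfl fun i _ => ?_
        rw [add_smul, smul_smul, smul_smul]
    refine convexHull_min ?_ hconv hx
    rintro _ ⟨i, hi, rfl⟩
    refine ⟨fun j => if j = i then 1 else 0, fun j _ => ?_, ?_, ?_⟩
    · dsimp only
      split_ifs <;> norm_num
    · rw [Finset.sum_ite_eq' S i, if_pos (Finset.mem_coe.mp hi)]
    · rw [Finset.sum_eq_single i]
      · simp
      · intro j _ hj
        simp [hj]
      · intro h; exact absurd hi h
  · rintro ⟨w, hw, hw1, rfl⟩
    exact (convex_convexHull ℝ _).sum_mem hw hw1 fun i hi => subset_convexHull ℝ _ ⟨i, hi, rfl⟩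

theorem oHull_subset_hull {ι : Type} (S : Finset ι) (f : ι → Fin 3 → ℝ) :
    oHull S f ⊆ convexHull ℝ (f '' (S : Set ι)) := by
  rintro x ⟨w, hw, hw1, hx⟩
  exact (mem_hull_iff S f x).mpr ⟨w, fun i hi => (hw i hi).le, hw1, hx⟩

theorem oHull_nonempty {ι : Type} (S : Finset ι) (hS : S.Nonempty) (f : ι → Fin 3 → ℝ) :
    (oHull S f).Nonempty := by
  have hcard : (0 : ℝ) < S.card := by exact_mod_cast hS.card_pos
  refine ⟨∑ i ∈ S, (1 / (S.card : ℝ)) • f i, fun _ => 1 / (S.card : ℝ), fun i _ => ?_, ?_, rfl⟩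
  · positivity
  · rw [Finset.sum_const, nsmul_eq_mul]
    field_simp

theorem hull_subset_closure {ι : Type} (S : Finset ι) (hS : S.Nonempty) (f : ι → Fin 3 → ℝ) :
    convexHull ℝ (f '' (S : Set ι)) ⊆ closure (oHull S f) := by
  intro x hx
  obtain ⟨w, hw, hw1, hxw⟩ := (mem_hull_iff S f x).mp hx
  obtain ⟨c, v, hv, hv1, hcv⟩ := oHull_nonempty S hS f
  have hcont : Continuous fun t : ℝ => (1 - t) • x + t • c := by fun_prop
  have h0 : (fun t : ℝ => (1 - t) • x + t • c) 0 = x := by simp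
  rw [← h0]
  have hcl : (0 : ℝ) ∈ closure (Ioo (0 : ℝ) 1) := by
    rw [closure_Ioo (by norm_num)]; simp
  have h1 := image_closure_subset_closure_image hcont ⟨0, hcl, rfl⟩
  refine closure_mono ?_ h1
  rintro _ ⟨t, ht, rfl⟩
  refine ⟨fun i => (1 - t) * w i + t * v i, fun i hi => ?_, ?_, ?_⟩
  · have h2 := hw i hi
    have h3 := hv i hi
    have h4 : 0 < t * v i := mul_pos ht.1 h3
    have h5 : 0 ≤ (1 - t) * w i := mul_nonneg (by linarith [ht.2]) h2
    show 0 < (1 - t) * w i + t * v i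
    linarith
  · rw [Finset.sum_add_distrib, ← Finset.mul_sum, ← Finset.mul_sum, hw1, hv1]
    ring
  · dsimp only
    rw [hxw, hcv, Finset.smul_sum, Finset.smul_sum, ← Finset.sum_add_distrib]
    refine Finset.sum_congr rfl fun i _ => ?_
    rw [add_smul, smul_smul, smul_smul]

theorem closure_oHull {ι : Type} (S : Finset ι) (hS : S.Nonempty) (f : ι → Fin 3 → ℝ) :
    closure (oHull S f) = convexHull ℝ (f '' (S : Set ι)) := by
  refine Set.Subset.antisymm ?_ (hull_subset_closure S hS f)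
  exact closure_minimal (oHull_subset_hull S f)
    ((S.finite_toSet.image f).isClosed_convexHull (𝕜 := ℝ))

/-- Polygon data of the open hull. -/
theorem oHull_polyData {ι : Type} (S : Finset ι) (hS : S.Nonempty) (f : ι → Fin 3 → ℝ)
    (φ : (Fin 3 → ℝ) →ₗ[ℝ] ℝ) (hφ : ∀ i ∈ S, φ (f i) = 1)
    (hspan : Submodule.span ℝ (f '' (S : Set ι)) = ⊤) : PolyData (oHull S f) φ where
  conv := by
    rintro _ ⟨w, hw, hw1, rfl⟩ _ ⟨w', hw', hw1', rfl⟩ a b ha hb hab
    refine ⟨fun i => a * w i + b * w' i, fun i hi => ?_, ?_, ?_⟩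
    · have h1 := hw i hi
      have h2 := hw' i hi
      rcases ha.lt_or_eq with ha' | ha'
      · have : 0 ≤ b * w' i := mul_nonneg hb h2.le
        have : 0 < a * w i := mul_pos ha' h1
        show 0 < a * w i + b * w' i
        linarith
      · have hb1 : b = 1 := by linarith
        show 0 < a * w i + b * w' i
        rw [← ha', hb1]
        simpa using h2
    · rw [Finset.sum_add_distrib, ← Finset.mul_sum, ← Finset.mul_sum, hw1, hw1']
      linarith
    · rw [Finset.smul_sum, Finset.smul_sum, ← Finset.sum_add_distrib]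
      refine Finset.sum_congr rfl fun i _ => ?_
      rw [add_smul, smul_smul, smul_smul]
  ne := oHull_nonempty S hS f
  one := by
    rintro _ ⟨w, hw, hw1, rfl⟩
    rw [map_sum, ← hw1]
    refine Finset.sum_congr rfl fun i hi => ?_
    rw [map_smul, hφ i hi, smul_eq_mul, mul_one]
  opn := by
    classical
    set L : (S → ℝ) →ₗ[ℝ] (Fin 3 → ℝ) := Fintype.linearCombination ℝ (fun i : S => f i) with hL
    have hsurj : Function.Surjective L := by
      rw [← LinearMap.range_eq_top, hL, Fintype.range_linearCombination, ← hspan]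
      congr 1
      ext x
      simp
    have hopen : IsOpenMap L := LinearMap.isOpenMap_of_finiteDimensional _ hsurj
    have hO : IsOpen {w : S → ℝ | ∀ i, 0 < w i} := by
      have : {w : S → ℝ | ∀ i, 0 < w i} = ⋂ i : S, {w : S → ℝ | 0 < w i} := by
        ext w; simp
      rw [this]
      exact isOpen_iInter_of_finite fun i => isOpen_lt continuous_const (continuous_apply i)
    have himg : coneOf (oHull S f) = L '' {w : S → ℝ | ∀ i, 0 < w i} := by
      ext x
      constructor
      · rintro ⟨l, hl, _, ⟨w, hw, hw1, rfl⟩, rfl⟩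
        refine ⟨fun i => l * w i, fun i => mul_pos hl (hw i i.2), ?_⟩
        rw [hL, Fintype.linearCombination_apply, Finset.smul_sum]
        rw [← Finset.sum_coe_sort S (fun i => l • w i • f i)]
        refine Finset.sum_congr rfl fun i _ => ?_
        rw [smul_smul]
      · rintro ⟨w, hw, rfl⟩
        have hpos : 0 < ∑ i : S, w i := Finset.sum_pos (fun i _ => hw i)
          (by obtain ⟨i, hi⟩ := hS; exact ⟨⟨i, hi⟩, Finset.mem_univ _⟩)
        set W := ∑ i : S, w i with hW
        refine ⟨W, hpos, ∑ i : S, (w i / W) • f i, ⟨fun i => if h : i ∈ S then w ⟨i, h⟩ / W else 0,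
          fun i hi => ?_, ?_, ?_⟩, ?_⟩
        · dsimp only
          rw [dif_pos hi]
          exact div_pos (hw _) hpos
        · rw [← Finset.sum_coe_sort S]
          simp only [Finset.coe_mem, dif_pos, Subtype.coe_eta]
          rw [← Finset.sum_div, ← hW, div_self hpos.ne']
        · rw [← Finset.sum_coe_sort S (fun i => (if h : i ∈ S then w ⟨i, h⟩ / W else 0) • f i)]
          simp only [Finset.coe_mem, dif_pos, Subtype.coe_eta]
        · rw [hL, Fintype.linearCombination_apply, Finset.smul_sum]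
          refine Finset.sum_congr rfl fun i _ => ?_
          rw [smul_smul]
          congr 1
          field_simp
    rw [himg]
    exact hopen _ hO
  bdd := by
    refine Bornology.IsBounded.subset ?_ (oHull_subset_hull S f)
    rw [isBounded_convexHull]
    exact (S.finite_toSet.image f).isBounded

/-- The relative interior of the convex hull is the open hull. -/
theorem intrinsicInterior_hull {ι : Type} (S : Finset ι) (hS : S.Nonempty) (f : ι → Fin 3 → ℝ)
    (φ : (Fin 3 → ℝ) →ₗ[ℝ] ℝ) (hφ : ∀ i ∈ S, φ (f i) = 1)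
    (hspan : Submodule.span ℝ (f '' (S : Set ι)) = ⊤) :
    intrinsicInterior ℝ (convexHull ℝ (f '' (S : Set ι))) = oHull S f := by
  have hP := oHull_polyData S hS f φ hφ hspan
  set K := convexHull ℝ (f '' (S : Set ι)) with hK
  apply Set.Subset.antisymm
  · intro x hx
    obtain ⟨y, hy, rfl⟩ := mem_intrinsicInterior.mp hx
    obtain ⟨c, v, hv, hv1, hcv⟩ := oHull_nonempty S hS f
    have hcK : c ∈ K := oHull_subset_hull S f ⟨v, hv, hv1, hcv⟩
    have hcA : c ∈ affineSpan ℝ K := subset_affineSpan ℝ _ hcK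
    -- the path through y away from c
    let γ : ℝ → affineSpan ℝ K := fun t =>
      ⟨AffineMap.lineMap c (y : Fin 3 → ℝ) t, AffineMap.lineMap_mem t hcA y.2⟩
    have hcont : Continuous γ := by
      apply Continuous.subtype_mk
      exact AffineMap.lineMap_continuous
    have hpre : IsOpen (γ ⁻¹' interior ((↑) ⁻¹' K : Set (affineSpan ℝ K))) :=
      isOpen_interior.preimage hcont
    have h1mem : (1 : ℝ) ∈ (γ ⁻¹' interior ((↑) ⁻¹' K : Set (affineSpan ℝ K))) := by
      have : γ 1 = y := by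
        apply Subtype.ext
        simp [γ]
      rw [Set.mem_preimage, this]
      exact hy
    obtain ⟨ε, hε, hball⟩ := Metric.isOpen_iff.mp hpre 1 h1mem
    have hmem : (1 + ε / 2 : ℝ) ∈ Metric.ball (1 : ℝ) ε := by
      rw [Metric.mem_ball, Real.dist_eq]
      have : 1 + ε / 2 - 1 = ε / 2 := by ring
      rw [this, abs_of_pos (by linarith)]
      linarith
    have hK0 : γ (1 + ε / 2 : ℝ) ∈ interior ((↑) ⁻¹' K : Set (affineSpan ℝ K)) := hball hmem
    have hK1 : γ (1 + ε / 2 : ℝ) ∈ ((↑) ⁻¹' K : Set (affineSpan ℝ K)) := interior_subset hK0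
    have hK' : ((γ (1 + ε / 2 : ℝ) : affineSpan ℝ K) : Fin 3 → ℝ) ∈ K := hK1
    have hval : ((γ (1 + ε / 2 : ℝ) : affineSpan ℝ K) : Fin 3 → ℝ) =
        (1 + ε / 2) • ((y : Fin 3 → ℝ) - c) + c := by
      simp [AffineMap.lineMap_apply, γ]
    rw [hval] at hK'
    obtain ⟨w, hw, hw1, hxw⟩ := (mem_hull_iff S f _).mp hK'
    have hθ : (0 : ℝ) < 1 + ε / 2 := by linarith
    refine ⟨fun i => (w i + (ε / 2) * v i) / (1 + ε / 2), fun i hi => ?_, ?_, ?_⟩
    · have h2 := hw i hi
      have h3 := hv i hi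
      show 0 < (w i + (ε / 2) * v i) / (1 + ε / 2)
      positivity
    · rw [← Finset.sum_div, Finset.sum_add_distrib, ← Finset.mul_sum, hw1, hv1]
      field_simp
    · have h4 : ((y : Fin 3 → ℝ)) = (1 / (1 + ε / 2)) •
          (((1 + ε / 2) • ((y : Fin 3 → ℝ) - c) + c) + (ε / 2) • c) := by
        ext i
        simp only [Pi.add_apply, Pi.sub_apply, Pi.smul_apply, smul_eq_mul]
        field_simp
        ring
      rw [h4, hxw, hcv, Finset.smul_sum, ← Finset.sum_add_distrib, Finset.smul_sum]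
      refine Finset.sum_congr rfl fun i _ => ?_
      rw [smul_smul, ← add_smul, smul_smul]
      congr 1
      field_simp
  · intro x hx
    have hxK : x ∈ K := oHull_subset_hull S f hx
    have hxA : x ∈ affineSpan ℝ K := subset_affineSpan ℝ _ hxK
    refine mem_intrinsicInterior.mpr ⟨⟨x, hxA⟩, ?_, rfl⟩
    rw [mem_interior]
    refine ⟨(↑) ⁻¹' coneOf (oHull S f), ?_, hP.opn.preimage continuous_subtype_val,
      PolyData.subset_cone hx⟩
    rintro ⟨z, hz⟩ hzc
    have hφK : ∀ z ∈ K, φ z = 1 := by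
      intro z hz
      obtain ⟨w, hw, hw1, hxw⟩ := (mem_hull_iff S f _).mp hz
      rw [hxw, map_sum, ← hw1]
      refine Finset.sum_congr rfl fun i hi => ?_
      rw [map_smul, hφ i hi, smul_eq_mul, mul_one]
    have hφz : φ z = 1 := by
      have h1 : z -ᵥ x ∈ (affineSpan ℝ K).direction := AffineSubspace.vsub_mem_direction hz hxA
      have h2 : (affineSpan ℝ K).direction ≤ LinearMap.ker φ := by
        rw [direction_affineSpan, vectorSpan_def, Submodule.span_le]
        rintro _ ⟨a, ha, b, hb, rfl⟩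
        show a -ᵥ b ∈ LinearMap.ker φ
        rw [LinearMap.mem_ker, vsub_eq_sub, map_sub, hφK a ha, hφK b hb, sub_self]
      have h3 : φ (z -ᵥ x) = 0 := h2 h1
      rw [vsub_eq_sub, map_sub, hφK x hxK] at h3
      linarith
    have h5 := (hP.mem_cone_iff.mp hzc).2
    rw [hφz, inv_one, one_smul] at h5
    exact oHull_subset_hull S f h5

/-- The linear form of a plane which misses the origin. -/
theorem exists_form (S : Finset (Fin 3 → ℤ))
    (hdim : finrank ℝ (vectorSpan ℝ (toR '' (S : Set (Fin 3 → ℤ)))) = 2)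
    (h0 : (0 : Fin 3 → ℝ) ∉ affineSpan ℝ (toR '' (S : Set (Fin 3 → ℤ)))) :
    S.Nonempty ∧ ∃ φ : (Fin 3 → ℝ) →ₗ[ℝ] ℝ, (∀ v ∈ S, φ (toR v) = 1) ∧
      Submodule.span ℝ (toR '' (S : Set (Fin 3 → ℤ))) = ⊤ := by
  have hne : S.Nonempty := by
    rw [Finset.nonempty_iff_ne_empty]
    rintro rfl
    rw [Finset.coe_empty, Set.image_empty, vectorSpan_empty, finrank_bot] at hdim
    exact absurd hdim (by norm_num)
  refine ⟨hne, ?_⟩
  obtain ⟨v0, hv0⟩ := hne
  set X := toR '' (S : Set (Fin 3 → ℤ)) with hX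
  have hv0X : toR v0 ∈ X := ⟨v0, hv0, rfl⟩
  set W := vectorSpan ℝ X with hW
  have hv0W : toR v0 ∉ W := by
    intro h
    apply h0
    have h1 : (-(toR v0)) +ᵥ toR v0 ∈ affineSpan ℝ X := by
      apply AffineSubspace.vadd_mem_of_mem_direction
      · rw [direction_affineSpan]
        exact W.neg_mem h
      · exact subset_affineSpan ℝ _ hv0X
    simpa using h1
  obtain ⟨f, hf0, hfW⟩ := Submodule.exists_le_ker_of_notMem hv0W
  refine ⟨(f (toR v0))⁻¹ • f, ?_, ?_⟩
  · intro v hv
    have h1 : toR v - toR v0 ∈ W := vsub_mem_vectorSpan ℝ ⟨v, hv, rfl⟩ hv0X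
    have h2 : f (toR v - toR v0) = 0 := hfW h1
    rw [map_sub, sub_eq_zero] at h2
    simp [h2, inv_mul_cancel₀ hf0]
  · apply Submodule.eq_top_of_finrank_eq
    have hWle : W ≤ Submodule.span ℝ X := by
      rw [hW, vectorSpan_def, Submodule.span_le]
      rintro _ ⟨a, ha, b, hb, rfl⟩
      exact Submodule.sub_mem _ (Submodule.subset_span ha) (Submodule.subset_span hb)
    have hlt : W < Submodule.span ℝ X := by
      refine lt_of_le_of_ne hWle ?_
      intro h
      exact hv0W (h ▸ Submodule.subset_span hv0X)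
    have h1 := Submodule.finrank_lt_finrank_of_lt hlt
    have h2 := Submodule.finrank_le (Submodule.span ℝ X)
    have h3 : finrank ℝ (Fin 3 → ℝ) = 3 := by simp
    omega

/-- The linear form of a plane through integer points is, up to a factor, integral. -/
theorem form_integral (S : Finset (Fin 3 → ℤ)) (φ : (Fin 3 → ℝ) →ₗ[ℝ] ℝ)
    (hφ : ∀ v ∈ S, φ (toR v) = 1)
    (hspan : Submodule.span ℝ (toR '' (S : Set (Fin 3 → ℤ))) = ⊤) :
    ∃ n : Fin 3 → ℤ, n ≠ 0 ∧ ∃ c : ℝ, c ≠ 0 ∧ ∀ x, c * φ x = toR n ⬝ᵥ x := by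
  obtain ⟨b, hbX, hbspan, hbli⟩ := exists_linearIndependent ℝ (toR '' (S : Set (Fin 3 → ℤ)))
  rw [hspan] at hbspan
  have hbfin : b.Finite := (S.finite_toSet.image toR).subset hbX
  have : Fintype b := hbfin.fintype
  let bas : Basis b ℝ (Fin 3 → ℝ) := Basis.mk hbli (by
    rw [Subtype.range_coe, hbspan])
  have hcard : Fintype.card b = 3 := by
    rw [← finrank_eq_card_basis bas]; simp
  let e : Fin 3 ≃ b := (Fintype.equivFinOfCardEq hcard).symm
  have hli : LinearIndependent ℝ (fun i : Fin 3 => ((e i : b) : Fin 3 → ℝ)) :=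
    hbli.comp e e.injective
  have hmem : ∀ i, ∃ v ∈ S, toR v = (e i : b) := by
    intro i
    obtain ⟨v, hv, hv2⟩ := hbX (e i).2
    exact ⟨v, hv, hv2⟩
  choose t htS ht using hmem
  set N : Matrix (Fin 3) (Fin 3) ℤ := fun i j => t i j with hN
  have hNR : ∀ i, (matR N) i = (e i : b) := by
    intro i
    rw [← ht i]
    rfl
  have hdetR : (matR N).det ≠ 0 := by
    have h1 : LinearIndependent ℝ (fun i => (matR N) i) := by
      have h2 : (fun i => (matR N) i) = fun i : Fin 3 => ((e i : b) : Fin 3 → ℝ) := by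
        funext i; exact hNR i
      rw [h2]; exact hli
    have h3 := (Matrix.linearIndependent_rows_iff_isUnit (A := matR N)).mp h1
    exact ((Matrix.isUnit_iff_isUnit_det _).mp h3).ne_zero
  have hdet : (matR N).det = (N.det : ℝ) := by
    have : ((Int.castRingHom ℝ) N.det) = (matR N).det := by
      rw [RingHom.map_det]; rfl
    rw [← this]; simp
  -- the covector of φ
  set fv : Fin 3 → ℝ := fun i => φ (Pi.single i 1) with hfv
  have hφx : ∀ x, φ x = fv ⬝ᵥ x := by
    intro x
    have h1 : x = ∑ i, x i • (Pi.single i (1 : ℝ) : Fin 3 → ℝ) := by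
      ext j
      simp [Finset.sum_apply, Pi.single_apply]
    nth_rewrite 1 [h1]
    rw [map_sum]
    simp [dotProduct, hfv, mul_comm]
  have hNf : (matR N).mulVec fv = fun _ => 1 := by
    funext i
    have h1 : φ ((matR N) i) = 1 := by
      rw [hNR i, ← ht i]; exact hφ _ (htS i)
    rw [hφx, dotProduct_comm] at h1
    exact h1
  set n : Fin 3 → ℤ := (Matrix.adjugate N).mulVec (fun _ => 1) with hn
  have hnR : toR n = (matR N).det • fv := by
    have h1 : toR n = (Matrix.adjugate (matR N)).mulVec (fun _ => 1) := by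
      have h2 : Matrix.adjugate (matR N) = matR (Matrix.adjugate N) := by
        have := (Int.castRingHom ℝ).map_adjugate N
        exact this.symm
      rw [h2]
      funext i
      simp [toR, hn, matR, Matrix.mulVec, dotProduct]
    rw [h1, ← hNf, Matrix.mulVec_mulVec, Matrix.adjugate_mul, Matrix.smul_mulVec, Matrix.one_mulVec]
  refine ⟨n, ?_, (matR N).det, hdetR, ?_⟩
  · intro hn0
    rw [hn0] at hnR
    have h1 : (matR N).det • fv = 0 := by
      rw [← hnR]; funext i; simp [toR]
    rw [smul_eq_zero] at h1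
    rcases h1 with h1 | h1
    · exact hdetR h1
    · rw [h1] at hNf
      have := congrFun hNf 0
      simp [Matrix.mulVec, dotProduct] at this
  · intro x
    rw [hnR, smul_dotProduct, hφx, smul_eq_mul]

end Pool.Agent.R337
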