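import Mathlib
import Pool.Agent.R337.SailAlg
import Pool.Agent.R337.SailGeom
import Pool.Agent.R337.SailPoly
import Pool.Agent.R337.SailGroup
import Pool.Agent.R337.SailMain

/-!
Helper file (helper337) for MP_7af359_nt: every polygon lies in one open invariant cone.
-/

namespace Pool.Agent.R337

open Set Module MeasureTheory

/-- A generic starting point in an open set. -/
theorem exists_generic (N : Set (Fin 3 → ℝ)) (hN : IsOpen N) (hne : N.Nonempty)
    (d : Fin 3 → ℝ) : ∃ x0 ∈ N, ∀ z : Fin 3 → ℤ, ∀ t l : ℝ, x0 + t • d ≠ l • toR z := by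
  by_contra hcon
  push Not at hcon
  have hsub : N ⊆ ⋃ z : Fin 3 → ℤ,
      ((Submodule.span ℝ {d, toR z} : Submodule ℝ (Fin 3 → ℝ)) : Set (Fin 3 → ℝ)) := by
    intro x hx
    obtain ⟨z, t, l, h⟩ := hcon x hx
    rw [mem_iUnion]
    refine ⟨z, ?_⟩
    have : x = l • toR z - t • d := by rw [← h]; abel
    rw [this]
    exact Submodule.sub_mem _
      (Submodule.smul_mem _ _ (Submodule.subset_span (by simp)))
      (Submodule.smul_mem _ _ (Submodule.subset_span (by simp)))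
  have hnull : volume (⋃ z : Fin 3 → ℤ,
      ((Submodule.span ℝ {d, toR z} : Submodule ℝ (Fin 3 → ℝ)) : Set (Fin 3 → ℝ))) = 0 := by
    rw [measure_iUnion_null_iff]
    intro z
    apply Measure.addHaar_submodule
    intro htop
    have h1 : finrank ℝ (Submodule.span ℝ ({d, toR z} : Set (Fin 3 → ℝ))) ≤ 2 := by
      classical
      have h2 := finrank_span_finset_le_card (R := ℝ) ({d, toR z} : Finset (Fin 3 → ℝ))
      have h3 : (({d, toR z} : Finset (Fin 3 → ℝ)) : Set (Fin 3 → ℝ)) = {d, toR z} := by simp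
      rw [h3] at h2
      exact le_trans h2 (Finset.card_le_two)
    rw [htop, finrank_top] at h1
    simp at h1
  have hpos := hN.measure_pos volume hne
  have := measure_mono_null hsub hnull
  exact hpos.ne' this

/-- Polygon data of all translates of the polygons. -/
theorem polyData_of_translates (polys : Finset (Finset (Fin 3 → ℤ)))
    (hdim : ∀ S ∈ polys, finrank ℝ (vectorSpan ℝ (toR '' (S : Set (Fin 3 → ℤ)))) = 2)
    (hO : ∀ S ∈ polys, (0 : Fin 3 → ℝ) ∉ affineSpan ℝ (toR '' (S : Set (Fin 3 → ℤ))))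
    (Γ : Set (GL (Fin 3) ℤ)) (Q : Set (Set (Fin 3 → ℝ)))
    (hQ : ∀ P, P ∈ Q ↔ ∃ g ∈ Γ, ∃ S ∈ polys,
      P = (fun x => (matR (g : Matrix (Fin 3) (Fin 3) ℤ)).mulVec x) ''
        intrinsicInterior ℝ (convexHull ℝ (toR '' (S : Set (Fin 3 → ℤ))))) :
    ∀ P ∈ Q, ∃ φ, PolyData P φ := by
  intro P hP
  obtain ⟨g, hg, S, hS, rfl⟩ := (hQ P).mp hP
  obtain ⟨hne, φ, hφ, hspan⟩ := exists_form S (hdim S hS) (hO S hS)
  have hint := intrinsicInterior_hull S hne toR φ hφ hspan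
  rw [hint]
  set L : (Fin 3 → ℝ) →ₗ[ℝ] (Fin 3 → ℝ) :=
    Matrix.toLin' (matR (g : Matrix (Fin 3) (Fin 3) ℤ)) with hL
  have hLx : (fun x => (matR (g : Matrix (Fin 3) (Fin 3) ℤ)).mulVec x) = L := by
    funext x; rw [hL, Matrix.toLin'_apply]
  rw [hLx, oHull_image]
  -- the inverse
  set L' : (Fin 3 → ℝ) →ₗ[ℝ] (Fin 3 → ℝ) :=
    Matrix.toLin' (matR ((g⁻¹ : GL (Fin 3) ℤ) : Matrix (Fin 3) (Fin 3) ℤ)) with hL'
  have hmul1 : matR ((g⁻¹ : GL (Fin 3) ℤ) : Matrix (Fin 3) (Fin 3) ℤ) *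
      matR (g : Matrix (Fin 3) (Fin 3) ℤ) = 1 := by
    have h1 : matR ((g⁻¹ : GL (Fin 3) ℤ) : Matrix (Fin 3) (Fin 3) ℤ) *
      matR (g : Matrix (Fin 3) (Fin 3) ℤ) = matR (((g⁻¹ * g : GL (Fin 3) ℤ) :
        Matrix (Fin 3) (Fin 3) ℤ)) := by
      rw [Units.val_mul]
      exact (Matrix.map_mul (f := Int.castRingHom ℝ)).symm
    rw [h1, inv_mul_cancel]
    ext i j
    simp [matR, Matrix.one_apply]
  have hmul2 : matR (g : Matrix (Fin 3) (Fin 3) ℤ) *
      matR ((g⁻¹ : GL (Fin 3) ℤ) : Matrix (Fin 3) (Fin 3) ℤ) = 1 := by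
    have h1 : matR (g : Matrix (Fin 3) (Fin 3) ℤ) *
      matR ((g⁻¹ : GL (Fin 3) ℤ) : Matrix (Fin 3) (Fin 3) ℤ) = matR (((g * g⁻¹ : GL (Fin 3) ℤ) :
        Matrix (Fin 3) (Fin 3) ℤ)) := by
      rw [Units.val_mul]
      exact (Matrix.map_mul (f := Int.castRingHom ℝ)).symm
    rw [h1, mul_inv_cancel]
    ext i j
    simp [matR, Matrix.one_apply]
  have hL'L : ∀ x, L' (L x) = x := by
    intro x
    rw [hL, hL', Matrix.toLin'_apply, Matrix.toLin'_apply, Matrix.mulVec_mulVec, hmul1,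
      Matrix.one_mulVec]
  have hLL' : ∀ x, L (L' x) = x := by
    intro x
    rw [hL, hL', Matrix.toLin'_apply, Matrix.toLin'_apply, Matrix.mulVec_mulVec, hmul2,
      Matrix.one_mulVec]
  refine ⟨φ ∘ₗ L', oHull_polyData S hne _ _ ?_ ?_⟩
  · intro v hv
    rw [LinearMap.comp_apply, hL'L]
    exact hφ v hv
  · have h2 : (fun i => L (toR i)) '' (S : Set (Fin 3 → ℤ)) =
        L '' (toR '' (S : Set (Fin 3 → ℤ))) := by
      rw [Set.image_image]
    rw [h2, Submodule.span_image, hspan, Submodule.map_top, LinearMap.range_eq_top]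
    intro x
    exact ⟨L' x, hLL' x⟩

/-- Coordinates of the image under a diagonal matrix. -/
theorem coord_diag {g : Matrix (Fin 3) (Fin 3) ℤ} (e : Basis (Fin 3) ℝ (Fin 3 → ℝ))
    (μ : Fin 3 → ℝ) (hμ : ∀ j, (matR g).mulVec (e j) = μ j • e j) (z : Fin 3 → ℝ) (j : Fin 3) :
    e.coord j ((matR g).mulVec z) = μ j * e.coord j z := by
  have h1 : z = ∑ i, e.coord i z • e i := by simpa using (e.sum_repr z).symm
  have h2 : (matR g).mulVec z = ∑ i, (e.coord i z * μ i) • e i := by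
    nth_rewrite 1 [h1]
    rw [Matrix.mulVec_sum]
    refine Finset.sum_congr rfl fun i _ => ?_
    rw [Matrix.mulVec_smul, hμ i, smul_smul]
  rw [h2, map_sum]
  simp only [map_smul, smul_eq_mul, Module.Basis.coord_apply, Module.Basis.repr_self]
  rw [Finset.sum_eq_single j]
  · simp; ring
  · intro i _ hij
    rw [Finsupp.single_eq_of_ne (by first | exact hij | exact hij.symm)]; ring
  · simp

/-- In the situation of the problem, every vertex of a polygon has eigencoordinates whose signs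
are those of the linear form of the polygon at the eigenvectors. -/
theorem sign_vertex {A : Matrix (Fin 3) (Fin 3) ℤ} (hirr : Irreducible (matQ A).charpoly)
    (e : Basis (Fin 3) ℝ (Fin 3 → ℝ)) (α : Fin 3 → ℝ)
    (he : ∀ j, (matR A).mulVec (e j) = α j • e j)
    (Γ : Set (GL (Fin 3) ℤ)) (hone : (1 : GL (Fin 3) ℤ) ∈ Γ)
    (hΓ : ∀ g ∈ Γ, ∃ μ : Fin 3 → ℝ, (∀ j, 0 < μ j) ∧ (∏ j, μ j = 1) ∧
      ∀ j, (matR (g : Matrix (Fin 3) (Fin 3) ℤ)).mulVec (e j) = μ j • e j)
    (polys : Finset (Finset (Fin 3 → ℤ)))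
    (hdim : ∀ S ∈ polys, finrank ℝ (vectorSpan ℝ (toR '' (S : Set (Fin 3 → ℤ)))) = 2)
    (hO : ∀ S ∈ polys, (0 : Fin 3 → ℝ) ∉ affineSpan ℝ (toR '' (S : Set (Fin 3 → ℤ))))
    (Q : Set (Set (Fin 3 → ℝ)))
    (hQ : ∀ P, P ∈ Q ↔ ∃ g ∈ Γ, ∃ S ∈ polys,
      P = (fun x => (matR (g : Matrix (Fin 3) (Fin 3) ℤ)).mulVec x) ''
        intrinsicInterior ℝ (convexHull ℝ (toR '' (S : Set (Fin 3 → ℤ)))))
    (hfront : ∀ P ∈ Q, ∀ x ∈ closure P, x ∉ P → (∃ z : Fin 3 → ℤ, x = toR z) ∨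
      ∃ a b : Fin 3 → ℝ, a ≠ b ∧ x ∈ openSegment ℝ a b ∧ a ∈ closure P ∧ b ∈ closure P ∧
        ∃ P' ∈ Q, a ∈ closure P' ∧ b ∈ closure P' ∧ ∃ c ∈ P, ∃ c' ∈ P', ∃ s t u r : ℝ,
          0 < s ∧ 0 < t ∧ 0 ≤ r ∧ s • c + t • c' = (s + t + r - u) • a + u • b)
    {S : Finset (Fin 3 → ℤ)} (hS : S ∈ polys) :
    ∃ σ : Fin 3 → ℝ, ∀ v ∈ S, ∀ j, 0 < e.coord j (toR v) * σ j := by
  have hpolyQ : ∀ P ∈ Q, ∃ φ, PolyData P φ := polyData_of_translates polys hdim hO Γ Q hQ
  -- the polygon S itself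
  obtain ⟨hne, φ, hφ, hspan⟩ := exists_form S (hdim S hS) (hO S hS)
  have hint := intrinsicInterior_hull S hne toR φ hφ hspan
  have hPS : PolyData (oHull S toR) φ := oHull_polyData S hne toR φ hφ hspan
  have hPQ : oHull S toR ∈ Q := by
    rw [hQ]
    refine ⟨1, hone, S, hS, ?_⟩
    rw [hint]
    have h1 : (fun x => (matR ((1 : GL (Fin 3) ℤ) : Matrix (Fin 3) (Fin 3) ℤ)).mulVec x) =
        fun x => x := by
      funext x
      have : matR ((1 : GL (Fin 3) ℤ) : Matrix (Fin 3) (Fin 3) ℤ) = 1 := by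
        ext i j
        simp [matR, Matrix.one_apply]
      rw [this, Matrix.one_mulVec]
    rw [h1, Set.image_id']
  obtain ⟨n, hn, c, hc, hcφ⟩ := form_integral S φ hφ hspan
  have hφe : ∀ j, φ (e j) ≠ 0 := by
    intro j h0
    have h1 := hcφ (e j)
    rw [h0, mul_zero] at h1
    exact dot_ne_zero hirr (e.ne_zero j) (he j) hn h1.symm
  refine ⟨fun j => φ (e j), fun v hv j => ?_⟩
  have hv0 : v ≠ 0 := by
    rintro rfl
    have h1 := hφ 0 hv
    have h2 : toR 0 = 0 := toR_zero_iff.mpr rfl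
    rw [h2, map_zero] at h1
    norm_num at h1
  have hcv : ∀ i, e.coord i (toR v) ≠ 0 := fun i => coord_ne_zero hirr e α he hv0 i
  by_contra hneg
  have hlt : e.coord j (toR v) * φ (e j) < 0 := by
    refine lt_of_le_of_ne (not_lt.mp hneg) ?_
    exact mul_ne_zero (hcv j) (hφe j)
  have hcontc : ∀ i, Continuous (e.coord i) := fun i =>
    (e.coord i).continuous_of_finiteDimensional
  -- the open set
  set N1 : Set (Fin 3 → ℝ) := {x | e.coord j x * φ (e j) < 0} ∩ ⋂ i, {x | e.coord i x ≠ 0} with hN1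
  have hN1o : IsOpen N1 := by
    apply IsOpen.inter
    · exact isOpen_lt ((hcontc j).mul continuous_const) continuous_const
    · exact isOpen_iInter_of_finite fun i => isOpen_ne_fun (hcontc i) continuous_const
  have hvN1 : toR v ∈ N1 := ⟨hlt, by simpa using hcv⟩
  have hvcl : toR v ∈ closure (coneOf (oHull S toR)) := by
    have h1 : toR v ∈ closure (oHull S toR) :=
      hull_subset_closure S hne toR (subset_convexHull ℝ _ ⟨v, hv, rfl⟩)
    exact closure_mono PolyData.subset_cone h1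
  have hNne : (N1 ∩ coneOf (oHull S toR)).Nonempty := mem_closure_iff.mp hvcl N1 hN1o hvN1
  have hNo : IsOpen (N1 ∩ coneOf (oHull S toR)) := hN1o.inter hPS.opn
  -- the direction
  obtain ⟨ε, hε, hεφ⟩ : ∃ ε : ℝ, (ε = 1 ∨ ε = -1) ∧ φ (ε • e j) < 0 := by
    rcases lt_or_gt_of_ne (hφe j) with h | h
    · exact ⟨1, Or.inl rfl, by simpa using h⟩
    · exact ⟨-1, Or.inr rfl, by simpa using h⟩
  obtain ⟨x0, ⟨hx0N, hx0c⟩, hgen⟩ := exists_generic _ hNo hNne (ε • e j)
  have hx0j : e.coord j x0 * φ (e j) < 0 := hx0N.1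
  have hx0i : ∀ i, e.coord i x0 ≠ 0 := by
    have := hx0N.2
    simpa using this
  have hsame : 0 < ε * e.coord j x0 := by
    rw [map_smul, smul_eq_mul] at hεφ
    rcases hε with rfl | rfl
    · have h1 : φ (e j) < 0 := by linarith
      rw [one_mul]
      by_contra hcon
      have : 0 ≤ e.coord j x0 * φ (e j) := mul_nonneg_of_nonpos_of_nonpos (not_lt.mp hcon) h1.le
      linarith
    · have h1 : 0 < φ (e j) := by linarith
      by_contra hcon
      have h2 : 0 ≤ e.coord j x0 := by linarith [not_lt.mp hcon]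
      have : 0 ≤ e.coord j x0 * φ (e j) := mul_nonneg h2 h1.le
      linarith
  -- lower bound for the coordinates along the ray
  obtain ⟨δ, hδ, hδi⟩ : ∃ δ : ℝ, 0 < δ ∧ ∀ i, δ ≤ |e.coord i x0| := by
    refine ⟨min (min |e.coord 0 x0| |e.coord 1 x0|) |e.coord 2 x0|, ?_, ?_⟩
    · exact lt_min (lt_min (abs_pos.mpr (hx0i 0)) (abs_pos.mpr (hx0i 1))) (abs_pos.mpr (hx0i 2))
    · intro i
      fin_cases i
      · exact le_trans (min_le_left _ _) (min_le_left _ _)
      · exact le_trans (min_le_left _ _) (min_le_right _ _)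
      · exact min_le_right _ _
  have hray : ∀ t : ℝ, 0 ≤ t → ∀ i, δ ≤ |e.coord i (x0 + t • (ε • e j))| := by
    intro t ht i
    rw [map_add, map_smul, map_smul]
    by_cases hij : i = j
    · subst hij
      have h1 : e.coord i (e i) = 1 := by simp
      rw [h1, smul_eq_mul, smul_eq_mul, mul_one]
      refine le_trans (hδi i) ?_
      rcases hε with rfl | rfl
      · have h2 : 0 < e.coord i x0 := by linarith
        rw [abs_of_pos h2, abs_of_nonneg (by linarith)]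
        linarith
      · have h2 : e.coord i x0 < 0 := by linarith
        rw [abs_of_neg h2, abs_of_nonpos (by linarith)]
        linarith
    · have h1 : e.coord i (e j) = 0 := by
        simp [Finsupp.single_eq_of_ne hij]
      rw [h1, smul_zero, smul_zero, add_zero]
      exact hδi i
  have hfin : Set.Finite {P | P ∈ Q ∧ ∃ t : ℝ, 0 ≤ t ∧ ∃ l : ℝ, 0 < l ∧ l ≤ φ x0 ∧ ∃ p ∈ P,
      x0 + t • (ε • e j) = l • p} := by
    refine finite_met e Γ hΓ ((fun S : Finset (Fin 3 → ℤ) =>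
      intrinsicInterior ℝ (convexHull ℝ (toR '' (S : Set (Fin 3 → ℤ))))) '' (polys : Set _))
      (polys.finite_toSet.image _) ?_ Q ?_ hδ hray
    · rintro _ ⟨S, _, rfl⟩
      refine Bornology.IsBounded.subset ?_ intrinsicInterior_subset
      rw [isBounded_convexHull]
      exact (S.finite_toSet.image toR).isBounded
    · intro P hP
      obtain ⟨g, hg, S, hS, rfl⟩ := (hQ P).mp hP
      exact ⟨g, hg, _, ⟨S, hS, rfl⟩, rfl⟩
  exact no_descent Q hpolyQ hfront hPQ hPS hx0c hεφ hgen hfin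

end Pool.Agent.R337
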